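import Pool.Agent.H371.SE.M10
import Pool.Agent.H371.SE.M12
import Pool.Agent.H371.SE.M14

/-!
Definitions for the part on mapping class groups of surfaces with punctures.
-/

set_option autoImplicit false

namespace Pool.Agent.H371.PM

open Pool.Agent.H371.SE

/-- the loop around the puncture `j` -/
def zz (g r : ℕ) (j : Fin r) : FreeGroup (Fin (2 * g + r)) := FreeGroup.of (Fin.natAdd (2 * g) j)

/-- the last peripheral element `∏ [x_(2i), x_(2i+1)] ∏ z_j` -/
def dd (g r : ℕ) : FreeGroup (Fin (2 * g + r)) :=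
  (List.ofFn fun i : Fin g => cmt (FreeGroup.of (⟨2 * i, by omega⟩ : Fin (2 * g + r)))
    (FreeGroup.of (⟨2 * i + 1, by omega⟩ : Fin (2 * g + r)))).prod * (List.ofFn (zz g r)).prod

end Pool.Agent.H371.PM
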