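import Pool.Agent.H371.PM.Defs

set_option autoImplicit false

namespace Pool.Agent.H371.PM

open Pool.Agent.H371.SE

section
variable {p : ℕ} [Fact p.Prime] {Γ : Type} [Group Γ] [TopologicalSpace Γ] [IsTopologicalGroup Γ]
  [CompactSpace Γ] [T2Space Γ]

/-- quotients by open normal subgroups are `p`-groups -/
theorem pow_mem (hG : Good p Γ) {W : Subgroup Γ} (hn : W.Normal) (hW : IsOpen (W : Set Γ))
    (x : Γ) : ∃ k : ℕ, x ^ (p ^ k) ∈ W := by
  have hp : p.Prime := Fact.out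
  by_contra hcon
  have hcon' : ∀ k : ℕ, x ^ (p ^ k) ∈ ((W : Set Γ)ᶜ) := fun k hk => hcon ⟨k, hk⟩
  have hcl : IsCompact ((W : Set Γ)ᶜ) := hW.isClosed_compl.isCompact
  obtain ⟨y, hyW, hy⟩ := hcl.exists_mapClusterPt_of_frequently (l := Filter.atTop)
    (f := fun k : ℕ => x ^ (p ^ k)) (Filter.Frequently.of_forall hcon')
  have hy1 : y ≠ 1 := fun h => hyW (h ▸ W.one_mem)
  obtain ⟨N, ρ, h1, h2, h3, h4⟩ := hG.sep y hy1
  apply h4
  apply M7x.red_ext
  intro s
  have hR : ((p : ℕ) : ZMod (p ^ s)) ^ s = 0 := by rw [← Nat.cast_pow, ZMod.natCast_self]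
  obtain ⟨k0, hk0⟩ := M7x.unip_pow hp hR (M7x.red p N s (ρ x))
    (fun i j hij => by rw [M7x.red_apply, h1 x i j hij, map_zero])
    (fun i => by rw [M7x.red_apply, h2 x i, map_one])
  have h5 : ∀ k, k0 ≤ k → M7x.red p N s (ρ (x ^ (p ^ k))) = 1 := by
    intro k hk
    rw [map_pow, map_pow, ← Nat.sub_add_cancel hk, pow_add, mul_comm, pow_mul, hk0, one_pow]
  choose V hVo hV using fun i j => h3 i j s
  have hS : (⋂ i, ⋂ j, {z : Γ | y⁻¹ * z ∈ V i j}) ∈ nhds y := by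
    refine Filter.iInter_mem.2 fun i => Filter.iInter_mem.2 fun j => ?_
    refine IsOpen.mem_nhds ((hVo i j).preimage (continuous_const.mul continuous_id)) ?_
    show y⁻¹ * y ∈ V i j
    rw [inv_mul_cancel]
    exact (V i j).one_mem
  obtain ⟨k, hk, hk'⟩ := ((hy.frequently hS).and_eventually
    (Filter.eventually_ge_atTop k0)).exists
  rw [map_one, ← h5 k hk', M7x.red_eq_iff]
  intro i j
  have h6 : y⁻¹ * x ^ (p ^ k) ∈ V i j := Set.mem_iInter.1 (Set.mem_iInter.1 hk i) j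
  have h7 := hV i j y (Subgroup.mem_top _) _ (Subgroup.mem_top _) h6
  rw [mul_inv_cancel_left] at h7
  rw [← dvd_neg, neg_sub]
  exact h7

end

end Pool.Agent.H371.PM
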