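import Pool.Agent.H371.PM.Defs

set_option autoImplicit false

namespace Pool.Agent.H371.PM

open Pool.Agent.H371.SE

namespace Q10x

variable {F M : Type} [Group F] [AddCommGroup M]

theorem add_one {ψ : F → M} (h : ∀ x y, ψ (x * y) = ψ x + ψ y) : ψ 1 = 0 := by
  have h1 := h 1 1
  rw [mul_one] at h1
  have h2 : ψ 1 + ψ 1 = ψ 1 + 0 := by rw [add_zero]; exact h1.symm
  exact add_left_cancel h2

theorem add_inv {ψ : F → M} (h : ∀ x y, ψ (x * y) = ψ x + ψ y) (x : F) : ψ x⁻¹ = -ψ x := by
  have h1 := h x x⁻¹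
  rw [mul_inv_cancel, add_one h] at h1
  exact (neg_eq_of_add_eq_zero_right h1.symm).symm

theorem add_cmt {ψ : F → M} (h : ∀ x y, ψ (x * y) = ψ x + ψ y) (x y : F) :
    ψ (cmt x y) = 0 := by
  unfold cmt
  rw [h, h, h, add_inv h, add_inv h]
  abel

theorem add_list {ψ : F → M} (h : ∀ x y, ψ (x * y) = ψ x + ψ y) (L : List F) :
    ψ L.prod = (L.map ψ).sum := by
  induction L with
  | nil => simpa using add_one h
  | cons a L ih => rw [List.prod_cons, h, ih, List.map_cons, List.sum_cons]

/-- The value of an additive function at the last peripheral element. -/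
theorem add_dd (g r : ℕ) {ψ : FreeGroup (Fin (2 * g + r)) → M}
    (h : ∀ x y, ψ (x * y) = ψ x + ψ y) : ψ (dd g r) = ∑ j, ψ (zz g r j) := by
  unfold dd
  rw [h, add_list h, add_list h, List.map_ofFn, List.map_ofFn, List.sum_ofFn, List.sum_ofFn]
  have h1 : ∑ i : Fin g, (ψ ∘ fun i : Fin g =>
      cmt (FreeGroup.of (⟨2 * i, by omega⟩ : Fin (2 * g + r)))
      (FreeGroup.of (⟨2 * i + 1, by omega⟩ : Fin (2 * g + r)))) i = 0 :=
    Finset.sum_eq_zero fun i _ => add_cmt h _ _
  rw [h1, zero_add]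
  rfl

open Classical in
/-- The retraction. -/
noncomputable def pp (g r c : ℕ) (e : Fin c → Fin r) :
    FreeGroup (Fin (2 * g + r)) →* FreeGroup (Fin (2 * g + c)) :=
  FreeGroup.lift (Fin.addCases (motive := fun _ => FreeGroup (Fin (2 * g + c)))
    (fun k => FreeGroup.of (Fin.castAdd c k))
    (fun j => if h : ∃ k, e k = j then zz g c h.choose else 1))

/-- The section. -/
def ss (g r c : ℕ) (e : Fin c → Fin r) :
    FreeGroup (Fin (2 * g + c)) →* FreeGroup (Fin (2 * g + r)) :=
  FreeGroup.lift (Fin.addCases (motive := fun _ => FreeGroup (Fin (2 * g + r)))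
    (fun k => FreeGroup.of (Fin.castAdd r k)) (fun k => zz g r (e k)))

theorem pp_left (g r c : ℕ) (e : Fin c → Fin r) (k : Fin (2 * g)) :
    pp g r c e (FreeGroup.of (Fin.castAdd r k)) = FreeGroup.of (Fin.castAdd c k) := by
  unfold pp
  rw [FreeGroup.lift_apply_of, Fin.addCases_left]

theorem pp_right (g r c : ℕ) (e : Fin c → Fin r) (he : Function.Injective e) (k : Fin c) :
    pp g r c e (zz g r (e k)) = zz g c k := by
  unfold pp
  rw [zz, FreeGroup.lift_apply_of, Fin.addCases_right]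
  have h : ∃ k', e k' = e k := ⟨k, rfl⟩
  rw [dif_pos h, he h.choose_spec]

theorem pp_off (g r c : ℕ) (e : Fin c → Fin r) (j : Fin r) (hj : j ∉ Set.range e) :
    pp g r c e (zz g r j) = 1 := by
  unfold pp
  rw [zz, FreeGroup.lift_apply_of, Fin.addCases_right]
  have h : ¬ ∃ k, e k = j := fun h => hj h
  rw [dif_neg h]

theorem ss_left (g r c : ℕ) (e : Fin c → Fin r) (k : Fin (2 * g)) :
    ss g r c e (FreeGroup.of (Fin.castAdd c k)) = FreeGroup.of (Fin.castAdd r k) := by
  unfold ss
  rw [FreeGroup.lift_apply_of, Fin.addCases_left]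

theorem ss_right (g r c : ℕ) (e : Fin c → Fin r) (k : Fin c) :
    ss g r c e (zz g c k) = zz g r (e k) := by
  unfold ss
  rw [zz, FreeGroup.lift_apply_of, Fin.addCases_right]

theorem pp_ss (g r c : ℕ) (e : Fin c → Fin r) (he : Function.Injective e)
    (y : FreeGroup (Fin (2 * g + c))) : pp g r c e (ss g r c e y) = y := by
  have h : (pp g r c e).comp (ss g r c e) = MonoidHom.id _ := by
    refine FreeGroup.ext_hom _ _ fun a => ?_
    rw [MonoidHom.comp_apply, MonoidHom.id_apply]
    refine Fin.addCases (fun k => ?_) (fun k => ?_) a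
    · rw [ss_left, pp_left]
    · change pp g r c e (ss g r c e (zz g c k)) = zz g c k
      rw [ss_right, pp_right g r c e he]
  exact DFunLike.congr_fun h y

end Q10x

open Q10x in
/-- kill all punctures outside the image of `e` -/
theorem kill_off (g r c : ℕ) (e : Fin c → Fin r) (he : Function.Injective e) :
    ∃ (π : FreeGroup (Fin (2 * g + r)) →* FreeGroup (Fin (2 * g + c)))
      (s : FreeGroup (Fin (2 * g + c)) →* FreeGroup (Fin (2 * g + r))),
      (∀ y, π (s y) = y) ∧ (∀ j, j ∉ Set.range e → π (zz g r j) = 1) ∧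
      (∀ k, π (zz g r (e k)) = zz g c k) ∧
      (∀ (M : Type) [AddCommGroup M] (ψ : FreeGroup (Fin (2 * g + c)) → M),
        (∀ x y, ψ (x * y) = ψ x + ψ y) → ψ (π (dd g r)) = ∑ k, ψ (zz g c k)) ∧
      Subgroup.closure (Set.range s ∪ {y | ∃ j, j ∉ Set.range e ∧ y = zz g r j}) = ⊤ := by
  refine ⟨pp g r c e, ss g r c e, pp_ss g r c e he, pp_off g r c e, pp_right g r c e he, ?_, ?_⟩
  · intro M _ ψ hψ
    have h1 : ∀ x y, ψ (pp g r c e (x * y)) = ψ (pp g r c e x) + ψ (pp g r c e y) := by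
      intro x y
      rw [map_mul, hψ]
    rw [add_dd g r (ψ := fun x => ψ (pp g r c e x)) h1]
    symm
    refine Fintype.sum_of_injective e he _ _ ?_ ?_
    · intro j hj
      rw [pp_off g r c e j hj]
      exact add_one hψ
    · intro k
      rw [pp_right g r c e he]
  · rw [eq_top_iff, ← FreeGroup.closure_range_of, Subgroup.closure_le]
    rintro _ ⟨a, rfl⟩
    refine Fin.addCases (fun k => ?_) (fun j => ?_) a
    · exact Subgroup.subset_closure (Or.inl ⟨_, ss_left g r c e k⟩)
    · by_cases hj : j ∈ Set.range e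
      · obtain ⟨k, rfl⟩ := hj
        exact Subgroup.subset_closure (Or.inl ⟨_, ss_right g r c e k⟩)
      · exact Subgroup.subset_closure (Or.inr ⟨j, hj, rfl⟩)

end Pool.Agent.H371.PM
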