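import Pool.Agent.H371.PM.Defs
import Pool.Agent.H371.SE.A13

set_option autoImplicit false
set_option linter.unusedSectionVars false

namespace Pool.Agent.H371.PM

open Pool.Agent.H371.SE

namespace Q11x

open A12x

section
variable {p : ℕ} [Fact p.Prime] {Γ : Type} [Group Γ] {t : MulAut Γ} {U : Subgroup Γ}

theorem ri_pow (hUt : Inv t U) {M : Type} {F : Γ → M} (hF : RI U F) (i : ℕ) :
    RI U (fun x => F ((t ^ i) x)) := by
  intro x u hu
  simp only
  rw [map_mul]
  exact hF _ _ (A2x.inv_pow hUt i u hu)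

theorem del_pow {δ : Γ → ZMod p} (hδt : ∀ x, δ (t x) = δ x) (i : ℕ) (x : Γ) :
    δ ((t ^ i) x) = δ x := by
  induction i generalizing x with
  | zero => rw [pow_zero]; rfl
  | succ i ih => rw [A2x.pow_succ_apply, ih, hδt]

theorem bt_pow {δ : Γ → ZMod p} (hδt : ∀ x, δ (t x) = δ x) (i : ℕ) (f x : Γ) :
    bt δ ((t ^ i) f) ((t ^ i) x) = bt δ f x := by
  unfold bt
  rw [← map_mul, del_pow hδt, del_pow hδt]

variable [Finite (Γ ⧸ U)]

theorem csum_pow (htp : t ^ p = 1) (hUt : Inv t U) {M : Type} [AddCommMonoid M] {F : Γ → M}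
    (hF : RI U F) (i : ℕ) : csum U (fun x => F ((t ^ i) x)) = csum U F := by
  have hp : 0 < p := (Fact.out : p.Prime).pos
  induction i with
  | zero => exact csum_congr fun x => by rw [pow_zero]; rfl
  | succ i ih =>
    rw [← ih, ← csum_comp hp htp hUt (ri_pow hUt hF i)]
    exact csum_congr fun x => by rw [A2x.pow_succ_apply]

theorem csum_zero {M : Type} [AddCommMonoid M] : csum U (fun _ : Γ => (0 : M)) = 0 := by
  unfold csum
  exact finsum_zero

theorem csum_sum {M : Type} [AddCommMonoid M] (F : ℕ → Γ → M) (n : ℕ) :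
    ∑ i ∈ Finset.range n, csum U (F i) = csum U (fun x => ∑ i ∈ Finset.range n, F i x) := by
  induction n with
  | zero =>
    rw [Finset.sum_range_zero, ← csum_zero (U := U) (M := M)]
    exact csum_congr fun x => by rw [Finset.sum_range_zero]
  | succ n ih =>
    rw [Finset.sum_range_succ, ih, ← csum_add]
    exact csum_congr fun x => by rw [Finset.sum_range_succ]

theorem nf_one (htp : t ^ p = 1) (hUt : Inv t U) {δ : Γ → ZMod p}
    (hδ : ∀ x, ∀ u ∈ U, δ (x * u) = δ x + δ u) (hδt : ∀ x, δ (t x) = δ x) (f : Γ) :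
    Nf p t (fun f => csum U (bt δ f)) f = 0 := by
  unfold Nf
  have h1 : ∀ i ∈ Finset.range p, csum U (bt δ ((t ^ i) f)) = csum U (bt δ f) := by
    intro i _
    have hri : RI U (bt δ ((t ^ i) f)) := fun x u hu => bt_ri hδ _ x u hu
    rw [← csum_pow htp hUt hri i]
    exact csum_congr fun x => bt_pow hδt i f x
  rw [Finset.sum_congr rfl h1, Finset.sum_const, Finset.card_range, nsmul_eq_mul,
    CharP.cast_eq_zero, zero_mul]

theorem nf_two (htp : t ^ p = 1) (hUt : Inv t U) {δ d : Γ → ZMod p}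
    (hδ : ∀ x, ∀ u ∈ U, δ (x * u) = δ x + δ u) (hδt : ∀ x, δ (t x) = δ x)
    (hκ : RI U (fun x => d (t x) - d x)) (hN : ∀ x, Nf p t (fun x => d (t x) - d x) x = 0)
    (g0 : Γ → ZMod p) (f : Γ) :
    Nf p t (fun f => g0 (t f) - g0 f + csum U (fun x => (d (t x) - d x) * bt δ f x)) f = 0 := by
  unfold Nf
  rw [Finset.sum_add_distrib]
  have h1 : ∑ i ∈ Finset.range p, (g0 (t ((t ^ i) f)) - g0 ((t ^ i) f)) = 0 := by
    have h2 : ∀ i ∈ Finset.range p, (g0 (t ((t ^ i) f)) - g0 ((t ^ i) f)) =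
        g0 ((t ^ (i + 1)) f) - g0 ((t ^ i) f) := by
      intro i _
      rw [pow_succ']
      rfl
    rw [Finset.sum_congr rfl h2, Finset.sum_range_sub (fun i => g0 ((t ^ i) f)), htp]
    simp
  have h3 : ∀ i ∈ Finset.range p, csum U (fun x => (d (t x) - d x) * bt δ ((t ^ i) f) x) =
      csum U (fun x => (d (t ((t ^ i) x)) - d ((t ^ i) x)) * bt δ f x) := by
    intro i _
    have hri : RI U (fun x => (d (t x) - d x) * bt δ ((t ^ i) f) x) := by
      intro x u hu
      have := hκ x u hu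
      simp only at this ⊢
      rw [this, bt_ri hδ _ _ _ hu]
    rw [← csum_pow htp hUt hri i]
    exact csum_congr fun x => by rw [bt_pow hδt i f x]
  rw [h1, Finset.sum_congr rfl h3, zero_add,
    csum_sum (fun i x => (d (t ((t ^ i) x)) - d ((t ^ i) x)) * bt δ f x) p,
    ← csum_zero (U := U) (M := ZMod p)]
  refine csum_congr fun x => ?_
  rw [← Finset.sum_mul]
  have h4 := hN x
  unfold Nf at h4
  rw [h4, zero_mul]

end

section
variable {p : ℕ} [Fact p.Prime] {Γ : Type} [Group Γ] [TopologicalSpace Γ] [IsTopologicalGroup Γ]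
  [CompactSpace Γ] [T2Space Γ] {t : MulAut Γ}

open Classical in
theorem K2oneN (hG : Good p Γ) (ht : Continuous t) (htp : t ^ p = 1) {U : Subgroup Γ}
    (hU : IsOpen (U : Set Γ)) (hUt : Inv t U) {δ : Γ → ZMod p}
    (hδ : ∀ x, ∀ u ∈ U, δ (x * u) = δ x + δ u) (hδl : LC U δ) (hδt : ∀ x, δ (t x) = δ x) {z : Γ}
    (htz : t z = z)
    (hz : ∀ ψ : Γ → ZMod p, AddOn ⊤ ψ → LC ⊤ ψ → (∀ x, Nf p t ψ x = 0) → ψ z = 0) :
    csum U (fun x => if x⁻¹ * t x ∈ U then δ (z * x) - δ x else 0) = 0 := by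
  have hfin : Finite (Γ ⧸ U) := finite_of_isOpen hU
  have hδ1 : δ 1 = 0 := at_one (U := U) fun x _ y hy => hδ x y hy
  obtain ⟨W, hW, hWo, hW1, -⟩ := exists_W hG hU hδ1 hδl hδ1 hδl
  have hadd : AddOn ⊤ (fun f => csum U (bt δ f)) := by
    intro f _ g _
    simp only
    have h1 : RI U (bt δ f) := fun x u hu => bt_ri hδ f x u hu
    rw [← csum_mul_left h1 g, ← csum_add]
    exact csum_congr fun x => bt_mul δ f g x
  have hlc : LC ⊤ (fun f => csum U (bt δ f)) := by
    refine ⟨W, hWo, fun f _ w _ hw => ?_⟩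
    simp only
    exact csum_congr fun x => bt_ins hW hδ hW1 f x w hw
  have hnorm : ∀ f, Nf p t (fun f => csum U (bt δ f)) f = 0 := fun f =>
    nf_one htp hUt hδ hδt f
  have h0 : csum U (bt δ z) = 0 := hz _ hadd hlc hnorm
  have h1 : RI U (bt δ z) := fun x u hu => bt_ri hδ z x u hu
  have h2 := csum_fixed (p := p) (t := t) htp hUt h1 (b := fun _ => 1) (fun _ _ _ => rfl)
    (fun x => by
      unfold bt
      have : z * t x = t (z * x) := by rw [map_mul, htz]
      rw [this, hδt, hδt])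
    (fun x => by
      unfold Nf
      simp)
  simp only [mul_one] at h2
  have h3 : csum U (fun x => bt δ z x) = 0 := h0
  rw [h3] at h2
  exact h2.symm

open Classical in
theorem K2N (hG : Good p Γ) (ht : Continuous t) (htp : t ^ p = 1) {U : Subgroup Γ}
    (hU : IsOpen (U : Set Γ)) (hUt : Inv t U) {δ : Γ → ZMod p}
    (hδ : ∀ x, ∀ u ∈ U, δ (x * u) = δ x + δ u) (hδl : LC U δ) (hδt : ∀ x, δ (t x) = δ x) {z : Γ}
    (htz : t z = z)
    (hz : ∀ ψ : Γ → ZMod p, AddOn ⊤ ψ → LC ⊤ ψ → (∀ x, Nf p t ψ x = 0) → ψ z = 0) {l : Γ → ZMod p} (hl : X p t U l) :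
    csum U (fun x => if x⁻¹ * t x ∈ U then (δ (z * x) - δ x) * l (x⁻¹ * t x) else 0) = 0 := by
  have hfin : Finite (Γ ⧸ U) := finite_of_isOpen hU
  have hp : 0 < p := (Fact.out : p.Prime).pos
  have hδ1 : δ 1 = 0 := at_one (U := U) fun x _ y hy => hδ x y hy
  obtain ⟨d, hd⟩ := exists_d hl.1
  obtain ⟨W, hW, hWo, hW1, hW2⟩ := exists_W hG hU hδ1 hδl (at_one hl.1) hl.2.1
  have hκ : RI U (fun x => d (t x) - d x) := by
    intro x u hu
    simp only
    rw [map_mul, hd _ _ (hUt u hu), hd _ _ hu, hl.2.2 u hu]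
    ring
  have hκ2 : ∀ x, x⁻¹ * t x ∈ U → d (t x) - d x = l (x⁻¹ * t x) := by
    intro x hx
    have := hd x _ hx
    rw [mul_inv_cancel_left] at this
    rw [this]
    ring
  have hN : ∀ x, Nf p t (fun x => d (t x) - d x) x = 0 := by
    intro x
    unfold Nf
    have h1 : ∀ i ∈ Finset.range p, (d (t ((t ^ i) x)) - d ((t ^ i) x)) =
        d ((t ^ (i + 1)) x) - d ((t ^ i) x) := by
      intro i _
      rw [pow_succ']
      rfl
    rw [Finset.sum_congr rfl h1, Finset.sum_range_sub (fun i => d ((t ^ i) x)), htp]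
    simp
  -- the cocycle is a coboundary
  obtain ⟨g0, ⟨V, hVo, hV⟩, hg0⟩ := hG.cd ⊤ isOpen_univ (Cc U δ d)
    (fun x _ y _ z _ => Cc_coc hδ hd x y z)
    ⟨W, hWo, fun x _ y _ w _ w' _ hw hw' => by
      unfold Cc
      refine csum_congr fun a => ?_
      rw [bt_ins hW hδ hW1 _ _ _ hw, bt_ins hW hd hW2 _ _ _ hw', bt_ins' hW hδ hW1 _ _ _ _ hw']⟩
  have hadd : AddOn ⊤ (fun f => g0 (t f) - g0 f +
      csum U (fun x => (d (t x) - d x) * bt δ f x)) := by
    intro f _ g _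
    simp only
    have h1 := Cc_t hp htp hUt hδ hd hδt hκ f g
    rw [map_mul, hg0 _ trivial _ trivial, hg0 _ trivial _ trivial]
    linear_combination h1
  have hlc : LC ⊤ (fun f => g0 (t f) - g0 f +
      csum U (fun x => (d (t x) - d x) * bt δ f x)) := by
    refine ⟨W ⊓ (V ⊓ V.comap t.toMonoidHom), ?_, fun f _ w _ hw => ?_⟩
    · rw [Subgroup.coe_inf, Subgroup.coe_inf]
      refine hWo.inter (hVo.inter ?_)
      exact hVo.preimage ht
    · obtain ⟨a, b, c⟩ := hw
      simp only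
      have e1 : g0 (t (f * w)) = g0 (t f) := by
        rw [map_mul]
        exact hV _ trivial _ trivial c
      rw [e1, hV _ trivial _ trivial b]
      congr 1
      refine csum_congr fun x => ?_
      rw [bt_ins hW hδ hW1 _ _ _ a]
  have hnorm : ∀ f, Nf p t (fun f => g0 (t f) - g0 f +
      csum U (fun x => (d (t x) - d x) * bt δ f x)) f = 0 := fun f =>
    nf_two htp hUt hδ hδt hκ hN g0 f
  have h0 := hz _ hadd hlc hnorm
  simp only [htz, sub_self, zero_add] at h0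
  have h1 : RI U (bt δ z) := fun x u hu => bt_ri hδ z x u hu
  have h2 := csum_fixed (p := p) (t := t) htp hUt h1 hκ
    (fun x => by
      unfold bt
      have : z * t x = t (z * x) := by rw [map_mul, htz]
      rw [this, hδt, hδt]) hN
  have h3 : csum U (fun x => bt δ z x * (d (t x) - d x)) = 0 := by
    rw [← h0]
    exact csum_congr fun x => mul_comm _ _
  rw [h3] at h2
  refine Eq.trans ?_ h2.symm
  refine csum_congr fun x => ?_
  split_ifs with hx
  · rw [← hκ2 x hx]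
    rfl
  · rfl

end

end Q11x

section
variable {p : ℕ} [Fact p.Prime] {Γ : Type} [Group Γ] [TopologicalSpace Γ] [IsTopologicalGroup Γ]
  [CompactSpace Γ] [T2Space Γ] {t : MulAut Γ}

/-- variant of `K3` with a weaker assumption on `z` -/
theorem K3N (hG : Good p Γ) (ht : Continuous t) (htp : t ^ p = 1) {U : Subgroup Γ}
    (hU : IsOpen (U : Set Γ)) (hUt : Inv t U) (hA : ∀ x, t x = x → x ∈ U) {δ : Γ → ZMod p}
    (hδ : ∀ x, ∀ u ∈ U, δ (x * u) = δ x + δ u) (hδl : LC U δ) (hδt : ∀ x, δ (t x) = δ x) {z : Γ}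
    (htz : t z = z)
    (hz : ∀ ψ : Γ → ZMod p, AddOn ⊤ ψ → LC ⊤ ψ → (∀ x, Nf p t ψ x = 0) → ψ z = 0) : δ z = 0 := by
  classical
  have hfin : Finite (Γ ⧸ U) := finite_of_isOpen hU
  -- the family of cocycles
  let ι : Type := {q : Γ ⧸ U // q.out⁻¹ * t q.out ∈ U ∧ q.out ∉ U}
  have : Finite ι := Subtype.finite
  let b : ι → Γ := fun q => q.1.out⁻¹ * t q.1.out
  have hb : ∀ i, Z1 p t U (b i) := fun q => ⟨q.2.1, nm_cob htp _⟩
  have hn : ∀ i, ∃ l : Γ → ZMod p, X p t U l ∧ l (b i) ≠ 0 := by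
    intro q
    by_contra hcon
    push Not at hcon
    obtain ⟨u, hu, hbu⟩ := descent hG ht htp hU hUt (hb q) hcon
    have hbu' : q.1.out⁻¹ * t q.1.out = u⁻¹ * t u := hbu
    have h1 : t (q.1.out * u⁻¹) = q.1.out * u⁻¹ := by
      rw [map_mul, map_inv]
      have h2 : t q.1.out = q.1.out * (u⁻¹ * t u) := by
        rw [← hbu', mul_inv_cancel_left]
      rw [h2]
      group
    have h3 : q.1.out ∈ U := by
      have := U.mul_mem (hA _ h1) hu
      rwa [inv_mul_cancel_right] at this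
    exact q.2.2 h3
  obtain ⟨l, hl, hlb⟩ := X.ind hG ht htp hU hUt b hb hn
  have e1 := Q11x.K2oneN hG ht htp hU hUt hδ hδl hδt htz hz
  have e2 := Q11x.K2N hG ht htp hU hUt hδ hδl hδt htz hz hl
  let F : Γ → ZMod p := fun x => (if x⁻¹ * t x ∈ U then δ (z * x) - δ x else 0) +
    (if x⁻¹ * t x ∈ U then (δ (z * x) - δ x) * l (x⁻¹ * t x) else 0)
  have e3 : csum U F = 0 := by
    have := csum_add (U := U) (fun x => if x⁻¹ * t x ∈ U then δ (z * x) - δ x else 0)
      (fun x => if x⁻¹ * t x ∈ U then (δ (z * x) - δ x) * l (x⁻¹ * t x) else 0)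
    rw [e1, e2, add_zero] at this
    exact this
  have hl1 : l 1 = 0 := by
    have := hl.1 1 U.one_mem 1 U.one_mem
    rw [mul_one] at this
    exact left_eq_add.1 this
  have hδ1 : δ 1 = 0 := by
    have := hδ 1 1 U.one_mem
    rw [mul_one] at this
    exact left_eq_add.1 this
  have hRI : RI U F := by
    intro x u hu
    have htu : t u ∈ U := hUt u hu
    have hconj : (x * u)⁻¹ * t (x * u) = u⁻¹ * ((x⁻¹ * t x) * t u) := by
      rw [map_mul]; group
    have hmem : (x * u)⁻¹ * t (x * u) ∈ U ↔ x⁻¹ * t x ∈ U := by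
      rw [hconj, U.mul_mem_cancel_left (U.inv_mem hu), U.mul_mem_cancel_right htu]
    have hd : δ (z * (x * u)) - δ (x * u) = δ (z * x) - δ x := by
      rw [← mul_assoc, hδ _ u hu, hδ _ u hu]; ring
    by_cases hx : x⁻¹ * t x ∈ U
    · have hlu : l ((x * u)⁻¹ * t (x * u)) = l (x⁻¹ * t x) := by
        rw [hconj, hl.1 _ (U.inv_mem hu) _ (U.mul_mem hx htu), hl.1 _ hx _ htu, hl.2.2 u hu]
        have h4 := hl.1 _ (U.inv_mem hu) _ hu
        rw [inv_mul_cancel, hl1] at h4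
        linear_combination -h4
      show (if (x * u)⁻¹ * t (x * u) ∈ U then δ (z * (x * u)) - δ (x * u) else 0) +
        (if (x * u)⁻¹ * t (x * u) ∈ U then (δ (z * (x * u)) - δ (x * u)) *
          l ((x * u)⁻¹ * t (x * u)) else 0) = (if x⁻¹ * t x ∈ U then δ (z * x) - δ x else 0) +
        (if x⁻¹ * t x ∈ U then (δ (z * x) - δ x) * l (x⁻¹ * t x) else 0)
      rw [if_pos (hmem.2 hx), if_pos (hmem.2 hx), if_pos hx, if_pos hx, hd, hlu]
    · show (if (x * u)⁻¹ * t (x * u) ∈ U then δ (z * (x * u)) - δ (x * u) else 0) +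
        (if (x * u)⁻¹ * t (x * u) ∈ U then (δ (z * (x * u)) - δ (x * u)) *
          l ((x * u)⁻¹ * t (x * u)) else 0) = (if x⁻¹ * t x ∈ U then δ (z * x) - δ x else 0) +
        (if x⁻¹ * t x ∈ U then (δ (z * x) - δ x) * l (x⁻¹ * t x) else 0)
      have hx' : (x * u)⁻¹ * t (x * u) ∉ U := fun h => hx (hmem.1 h)
      rw [if_neg hx', if_neg hx', if_neg hx, if_neg hx]
  have hout : ∀ x, x ∉ U → F x = 0 := by
    intro x hx
    obtain ⟨u, hu⟩ := QuotientGroup.mk_out_eq_mul U x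
    have h5 : F ((x : Γ ⧸ U).out) = F x := by rw [hu]; exact hRI x u u.2
    have h6 : ((x : Γ ⧸ U).out) ∉ U := by
      rw [hu]
      intro h7
      exact hx ((U.mul_mem_cancel_right u.2).1 h7)
    rw [← h5]
    set y := ((x : Γ ⧸ U).out) with hy
    show (if y⁻¹ * t y ∈ U then δ (z * y) - δ y else 0) +
      (if y⁻¹ * t y ∈ U then (δ (z * y) - δ y) * l (y⁻¹ * t y) else 0) = 0
    by_cases h8 : y⁻¹ * t y ∈ U
    · have h9 : l (y⁻¹ * t y) = -1 := hlb ⟨(x : Γ ⧸ U), h8, h6⟩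
      rw [if_pos h8, if_pos h8, h9]; ring
    · rw [if_neg h8, if_neg h8, add_zero]
  rw [csum_single hRI hout] at e3
  have h10 : F 1 = δ z := by
    show (if (1 : Γ)⁻¹ * t 1 ∈ U then δ (z * 1) - δ 1 else 0) +
      (if (1 : Γ)⁻¹ * t 1 ∈ U then (δ (z * 1) - δ 1) * l ((1 : Γ)⁻¹ * t 1) else 0) = δ z
    have h11 : (1 : Γ)⁻¹ * t 1 = 1 := by rw [map_one, inv_one, mul_one]
    rw [h11, if_pos U.one_mem, if_pos U.one_mem, hl1, hδ1, mul_one]; ring
  rw [← h10, e3]

end

end Pool.Agent.H371.PM
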