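import Pool.Agent.H371.PM.Q11
import Pool.Agent.H371.SE.A15

set_option autoImplicit false

namespace Pool.Agent.H371.PM

open Pool.Agent.H371.SE

section
variable {p : ℕ} [Fact p.Prime] {Γ : Type} [Group Γ] [TopologicalSpace Γ] [IsTopologicalGroup Γ]
  [CompactSpace Γ] [T2Space Γ] {t : MulAut Γ}

/-- fixed elements killed by all homomorphisms of norm `0` are killed by all homomorphisms -/
theorem fixed_zero (hG : Good p Γ) (ht : Continuous t) (htp : t ^ p = 1) {z : Γ}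
    (htz : t z = z)
    (hz : ∀ ψ : Γ → ZMod p, AddOn ⊤ ψ → LC ⊤ ψ → (∀ x, Nf p t ψ x = 0) → ψ z = 0)
    {ψ : Γ → ZMod p} (h1 : AddOn ⊤ ψ) (h2 : LC ⊤ ψ) : ψ z = 0 := by
  obtain ⟨W₁, hW₁o, hW₁⟩ := h2
  obtain ⟨W, hWn, hWo, hWt, hWS⟩ := basis_t hG ht htp (W₁ : Set Γ) hW₁o W₁.one_mem
  have hψ1 : ψ 1 = 0 := by
    have h := h1 1 (Subgroup.mem_top _) 1 (Subgroup.mem_top _)
    rw [mul_one] at h
    exact left_eq_add.1 h
  have hψW : ∀ x, ∀ u ∈ W, ψ (x * u) = ψ x := by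
    intro x u hu
    exact hW₁ x (Subgroup.mem_top _) u (Subgroup.mem_top _) (hWS hu)
  -- the subgroup generated by the fixed points and `W`
  let F : Subgroup Γ :=
    { carrier := {a | t a = a}
      one_mem' := map_one t
      mul_mem' := by
        intro a b ha hb
        change t (a * b) = a * b
        rw [map_mul, show t a = a from ha, show t b = b from hb]
      inv_mem' := by
        intro a ha
        change t a⁻¹ = a⁻¹
        rw [map_inv, show t a = a from ha] }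
  have hF : ∀ a, a ∈ F ↔ t a = a := fun a => Iff.rfl
  let U : Subgroup Γ := F ⊔ W
  have hU : ∀ x, x ∈ U ↔ ∃ a ∈ F, ∃ u ∈ W, a * u = x := A15x.mem_sup F W
  have hUo : IsOpen (U : Set Γ) := Subgroup.isOpen_mono (le_sup_right : W ≤ U) hWo
  have hUt : Inv t U := by
    intro x hx
    obtain ⟨a, ha, u, hu, rfl⟩ := (hU x).1 hx
    refine (hU _).2 ⟨a, ha, t u, hWt u hu, ?_⟩
    rw [map_mul, (hF a).1 ha]
  have hX : X p t U ψ := by
    refine ⟨?_, ⟨W₁, hW₁o, ?_⟩, ?_⟩
    · intro x _ y _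
      exact h1 x (Subgroup.mem_top _) y (Subgroup.mem_top _)
    · intro x _ u _ hu2
      exact hW₁ x (Subgroup.mem_top _) u (Subgroup.mem_top _) hu2
    · intro x hx
      obtain ⟨a, ha, u, hu, rfl⟩ := (hU x).1 hx
      rw [map_mul, (hF a).1 ha, hψW a (t u) (hWt u hu), hψW a u hu]
  have hFU : ∀ x, t x = x → x ∈ U := fun x hx => (le_sup_left : F ≤ U) hx
  obtain ⟨δ, hδ, hδl, hδt, hδz⟩ := K4 hG ht htp hUo hUt hX (hFU z htz) htz
  rw [← hδz]
  exact K3N hG ht htp hUo hUt hFU hδ hδl hδt htz hz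

end

end Pool.Agent.H371.PM
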