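import Pool.Agent.H371.PM.Defs

set_option autoImplicit false

namespace Pool.Agent.H371.PM

open Pool.Agent.H371.SE

section
variable {p : ℕ} [Fact p.Prime] {Γ : Type} [Group Γ] [TopologicalSpace Γ] [IsTopologicalGroup Γ]
  {Γ' : Type} [Group Γ'] [TopologicalSpace Γ'] [IsTopologicalGroup Γ']

theorem HZ_cont {f : Γ → ℤ_[p]} (hf : HZ p ⊤ f) : Continuous f := by
  rw [Metric.continuous_iff']
  intro x ε hε
  obtain ⟨k, hk⟩ := PadicInt.exists_pow_neg_lt p hε
  obtain ⟨W, hW, hf'⟩ := hf.2 k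
  have h1 : {y : Γ | x⁻¹ * y ∈ W} ∈ nhds x := by
    apply IsOpen.mem_nhds
    · exact hW.preimage (continuous_const_mul x⁻¹)
    · show x⁻¹ * x ∈ W
      rw [inv_mul_cancel]
      exact W.one_mem
  filter_upwards [h1] with y hy
  have h2 := hf' x (Subgroup.mem_top x) (x⁻¹ * y) (Subgroup.mem_top _) hy
  rw [mul_inv_cancel_left] at h2
  rw [dist_eq_norm]
  have h3 : ‖f y - f x‖ ≤ (p : ℝ) ^ (-k : ℤ) := by
    rw [PadicInt.norm_le_pow_iff_mem_span_pow, Ideal.mem_span_singleton]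
    exact h2
  exact lt_of_le_of_lt h3 hk

theorem HZ_comp {f : Γ' → ℤ_[p]} (hf : HZ p ⊤ f) {q : Γ →* Γ'} (hq : Continuous q) :
    HZ p ⊤ (fun x => f (q x)) := by
  constructor
  · intro x _ y _
    show f (q (x * y)) = f (q x) + f (q y)
    rw [map_mul]
    exact hf.1 _ (Subgroup.mem_top _) _ (Subgroup.mem_top _)
  · intro k
    obtain ⟨W, hW, h⟩ := hf.2 k
    refine ⟨W.comap q, ?_, ?_⟩
    · rw [Subgroup.coe_comap]
      exact hW.preimage hq
    · intro x _ w _ hw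
      show (p : ℤ_[p]) ^ k ∣ f (q (x * w)) - f (q x)
      rw [map_mul]
      exact h _ (Subgroup.mem_top _) _ (Subgroup.mem_top _) hw

theorem HZ_aut {f : Γ → ℤ_[p]} (hf : HZ p ⊤ f) {t : MulAut Γ} (ht : Continuous t) :
    HZ p ⊤ (fun x => f (t x)) := by
  constructor
  · intro x _ y _
    show f (t (x * y)) = f (t x) + f (t y)
    rw [map_mul]
    exact hf.1 _ (Subgroup.mem_top _) _ (Subgroup.mem_top _)
  · intro k
    obtain ⟨W, hW, h⟩ := hf.2 k
    refine ⟨W.comap t.toMonoidHom, ?_, ?_⟩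
    · rw [Subgroup.coe_comap]
      exact hW.preimage ht
    · intro x _ w _ hw
      show (p : ℤ_[p]) ^ k ∣ f (t (x * w)) - f (t x)
      rw [map_mul]
      exact h _ (Subgroup.mem_top _) _ (Subgroup.mem_top _) hw

theorem HZ_sub {f f' : Γ → ℤ_[p]} (hf : HZ p ⊤ f) (hf' : HZ p ⊤ f') :
    HZ p ⊤ (fun x => f x - f' x) := by
  constructor
  · intro x hx y hy
    show f (x * y) - f' (x * y) = f x - f' x + (f y - f' y)
    rw [hf.1 x hx y hy, hf'.1 x hx y hy]
    ring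
  · intro k
    obtain ⟨W₁, h₁, h₁'⟩ := hf.2 k
    obtain ⟨W₂, h₂, h₂'⟩ := hf'.2 k
    refine ⟨W₁ ⊓ W₂, ?_, ?_⟩
    · rw [Subgroup.coe_inf]
      exact h₁.inter h₂
    · intro x hx w hw hW
      have a := h₁' x hx w hw (Subgroup.mem_inf.mp hW).1
      have b := h₂' x hx w hw (Subgroup.mem_inf.mp hW).2
      have e : f (x * w) - f' (x * w) - (f x - f' x) =
          (f (x * w) - f x) - (f' (x * w) - f' x) := by ring
      show (p : ℤ_[p]) ^ k ∣ f (x * w) - f' (x * w) - (f x - f' x)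
      rw [e]
      exact dvd_sub a b

theorem HZ_mod {f : Γ → ℤ_[p]} (hf : HZ p ⊤ f) :
    AddOn ⊤ (fun x => PadicInt.toZMod (f x)) ∧ LC ⊤ (fun x => PadicInt.toZMod (f x)) := by
  constructor
  · intro x hx y hy
    show PadicInt.toZMod (f (x * y)) = PadicInt.toZMod (f x) + PadicInt.toZMod (f y)
    rw [hf.1 x hx y hy, map_add]
  · obtain ⟨W, hW, h⟩ := hf.2 1
    refine ⟨W, hW, ?_⟩
    intro x hx w hw hwW
    have h1 := h x hx w hw hwW
    rw [pow_one] at h1
    have h2 : PadicInt.toZMod (f (x * w) - f x) = 0 := by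
      rw [← RingHom.mem_ker, PadicInt.ker_toZMod, PadicInt.maximalIdeal_eq_span_p,
        Ideal.mem_span_singleton]
      exact h1
    rw [map_sub, sub_eq_zero] at h2
    exact h2

theorem HZ_conj {f : Γ → ℤ_[p]} (hf : HZ p ⊤ f) (c x : Γ) : f (c * x * c⁻¹) = f x := by
  have h : ∀ a b : Γ, f (a * b) = f a + f b := fun a b =>
    hf.1 a (Subgroup.mem_top _) b (Subgroup.mem_top _)
  have h1 : f 1 = 0 := by
    have := h 1 1
    rw [mul_one] at this
    simpa using this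
  have h2 : f c + f c⁻¹ = 0 := by
    rw [← h, mul_inv_cancel, h1]
  rw [h, h, add_right_comm, h2, zero_add]

end

section
variable {p : ℕ} [Fact p.Prime] {n : ℕ} {D : ℕ → Subgroup (FreeGroup (Fin n))}
  {Γ : Type} [Group Γ] [TopologicalSpace Γ] [IsTopologicalGroup Γ]
  {ι : FreeGroup (Fin n) →* Γ} {E : ℕ → Subgroup Γ}

theorem Q7x.denseRange (hM : Model D Γ ι E) : DenseRange ι := by
  intro x
  rw [mem_closure_iff]
  intro S hS hx
  obtain ⟨k, hk⟩ := hM.basis ((fun y => x * y) ⁻¹' S) (hS.preimage (continuous_const_mul x))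
    (by show x * 1 ∈ S; rwa [mul_one])
  obtain ⟨f, hf⟩ := hM.dense k x
  refine ⟨ι f, ?_, ⟨f, rfl⟩⟩
  have h1 : x * (x⁻¹ * ι f) ∈ S := hk hf
  rwa [mul_inv_cancel_left] at h1

theorem hom_ext (hM : Model D Γ ι E) {Δ : Type} [Group Δ] [TopologicalSpace Δ] [T2Space Δ]
    {f f' : Γ →* Δ} (hf : Continuous f) (hf' : Continuous f') (S : Set (FreeGroup (Fin n)))
    (hS : Subgroup.closure S = ⊤) (h : ∀ x ∈ S, f (ι x) = f' (ι x)) : f = f' := by
  have h1 : f.comp ι = f'.comp ι := MonoidHom.eq_of_eqOn_dense hS h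
  have h2 : (f : Γ → Δ) = f' := by
    apply (Q7x.denseRange hM).equalizer hf hf'
    funext x
    exact DFunLike.congr_fun h1 x
  exact DFunLike.coe_injective h2

theorem HZ_ext (hM : Model D Γ ι E) {f f' : Γ → ℤ_[p]} (hf : HZ p ⊤ f) (hf' : HZ p ⊤ f')
    (S : Set (FreeGroup (Fin n))) (hS : Subgroup.closure S = ⊤)
    (h : ∀ x ∈ S, f (ι x) = f' (ι x)) : f = f' := by
  apply (Q7x.denseRange hM).equalizer (HZ_cont hf) (HZ_cont hf')
  funext x
  have ha : ∀ a b : Γ, f (a * b) = f a + f b := fun a b =>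
    hf.1 a (Subgroup.mem_top _) b (Subgroup.mem_top _)
  have ha' : ∀ a b : Γ, f' (a * b) = f' a + f' b := fun a b =>
    hf'.1 a (Subgroup.mem_top _) b (Subgroup.mem_top _)
  have e1 : f 1 = 0 := by
    have := ha 1 1
    rw [mul_one] at this
    simpa using this
  have e1' : f' 1 = 0 := by
    have := ha' 1 1
    rw [mul_one] at this
    simpa using this
  have hi : ∀ a : Γ, f a⁻¹ = - f a := fun a => by
    rw [eq_neg_iff_add_eq_zero, ← ha, inv_mul_cancel, e1]
  have hi' : ∀ a : Γ, f' a⁻¹ = - f' a := fun a => by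
    rw [eq_neg_iff_add_eq_zero, ← ha', inv_mul_cancel, e1']
  have hx : x ∈ Subgroup.closure S := by rw [hS]; exact Subgroup.mem_top x
  show f (ι x) = f' (ι x)
  induction hx using Subgroup.closure_induction with
  | mem x hx => exact h x hx
  | one => rw [map_one, e1, e1']
  | mul x y _ _ hx hy => rw [map_mul, ha, ha', hx, hy]
  | inv x _ hx => rw [map_inv, hi, hi', hx]

open M7x in
theorem Q7x.extend_aux (hD : Chain p n D) (hM : Model D Γ ι E) {N : ℕ}
    (ρ : FreeGroup (Fin n) →* Matrix (Fin N) (Fin N) ℤ_[p])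
    (h1 : ∀ y i j, j < i → ρ y i j = 0) (h2 : ∀ y i, ρ y i i = 1) :
    ∃ (M : ℕ → ℕ) (ρ' : Γ →* Matrix (Fin N) (Fin N) ℤ_[p]),
      ∀ x s f, x⁻¹ * ι f ∈ E (M s) → red p N s (ρ' x) = red p N s (ρ f) := by
  choose m hm using fun s => hD.cof_rep ρ h1 h2 s
  let M : ℕ → ℕ := fun s => ∑ i ∈ Finset.range (s + 1), m i
  have hMs : ∀ s, M s ≤ M (s + 1) := by
    intro s
    change ∑ i ∈ Finset.range (s + 1), m i ≤ ∑ i ∈ Finset.range (s + 1 + 1), m i
    rw [Finset.sum_range_succ _ (s + 1)]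
    exact Nat.le_add_right _ _
  have hMm : ∀ s, m s ≤ M s := by
    intro s
    exact Finset.single_le_sum (f := m) (fun i _ => Nat.zero_le _)
      (Finset.mem_range.2 (Nat.lt_succ_self s))
  have hcong : ∀ s x, x ∈ D (M s) → red p N s (ρ x) = 1 := by
    intro s x hx
    rw [← map_one (red p N s), red_eq_iff]
    exact hm s x (hD.anti (hMm s) hx)
  -- two approximations
  have htwo : ∀ (x : Γ) s f f', x⁻¹ * ι f ∈ E (M s) → x⁻¹ * ι f' ∈ E (M s) →
      red p N s (ρ f) = red p N s (ρ f') := by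
    intro x s f f' hf hf'
    have h3 : ι (f⁻¹ * f') ∈ E (M s) := by
      have h4 := (E (M s)).mul_mem ((E (M s)).inv_mem hf) hf'
      have h5 : (x⁻¹ * ι f)⁻¹ * (x⁻¹ * ι f') = ι (f⁻¹ * f') := by
        rw [map_mul, map_inv]
        group
      rwa [h5] at h4
    have h6 := hcong s _ ((hM.mem_iff _ _).1 h3)
    have h7 : ρ f' = ρ f * ρ (f⁻¹ * f') := by rw [← map_mul, mul_inv_cancel_left]
    rw [h7, map_mul, h6, mul_one]
  have hex : ∀ x : Γ, ∃ L : Matrix (Fin N) (Fin N) ℤ_[p],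
      ∀ s f, x⁻¹ * ι f ∈ E (M s) → red p N s L = red p N s (ρ f) := by
    intro x
    choose F hF using fun s => hM.dense (M s) x
    have hF' : ∀ s, red p N s (ρ (F (s + 1))) = red p N s (ρ (F s)) := fun s =>
      htwo x s _ _ (hM.anti (hMs s) (hF (s + 1))) (hF s)
    have hlim : ∀ i j, ∃ L : ℤ_[p], ∀ s, (p : ℤ_[p]) ^ s ∣ ρ (F s) i j - L := fun i j =>
      lim_exists (fun s => ρ (F s) i j) fun s => (red_eq_iff s _ _).1 (hF' s) i j
    choose L hL using hlim
    refine ⟨Matrix.of L, fun s f hf => ?_⟩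
    rw [← htwo x s _ _ (hF s) hf]
    symm
    rw [red_eq_iff]
    intro i j
    exact hL i j s
  choose R hR using hex
  refine ⟨M, { toFun := R, map_one' := ?_, map_mul' := ?_ }, hR⟩
  · apply red_ext
    intro s
    rw [hR 1 s 1 (by rw [map_one, mul_one, inv_one]; exact one_mem _), map_one ρ]
  · intro x y
    apply red_ext
    intro s
    obtain ⟨f, hf⟩ := hM.dense (M s) x
    obtain ⟨g, hg⟩ := hM.dense (M s) y
    have h3 : (x * y)⁻¹ * ι (f * g) ∈ E (M s) := by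
      have h4 := (hM.normal (M s)).conj_mem _ hf y⁻¹
      have h5 := (E (M s)).mul_mem h4 hg
      have h6 : y⁻¹ * (x⁻¹ * ι f) * y⁻¹⁻¹ * (y⁻¹ * ι g) = (x * y)⁻¹ * ι (f * g) := by
        rw [map_mul]
        group
      rwa [h6] at h5
    rw [hR _ s _ h3, map_mul, map_mul, ← hR x s f hf, ← hR y s g hg, ← map_mul]

open M7x in
/-- unitriangular representations extend to the completion -/
theorem Q7x.extend (hD : Chain p n D) (hM : Model D Γ ι E) {N : ℕ}
    (ρ : FreeGroup (Fin n) →* Matrix (Fin N) (Fin N) ℤ_[p])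
    (h1 : ∀ y i j, j < i → ρ y i j = 0) (h2 : ∀ y i, ρ y i i = 1) :
    ∃ ρ' : Γ →* Matrix (Fin N) (Fin N) ℤ_[p], (∀ y i j, j < i → ρ' y i j = 0) ∧
      (∀ y i, ρ' y i i = 1) ∧ (∀ i j, CZ p (⊤ : Subgroup Γ) (fun y => ρ' y i j)) ∧
      ∀ x, ρ' (ι x) = ρ x := by
  obtain ⟨M, ρ', h⟩ := Q7x.extend_aux hD hM ρ h1 h2
  refine ⟨ρ', ?_, ?_, ?_, ?_⟩
  · intro y i j hij
    rw [← PadicInt.ext_of_toZModPow]
    intro s
    obtain ⟨f, hf⟩ := hM.dense (M s) y
    rw [← red_apply, h y s f hf, red_apply, h1 f i j hij]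
  · intro y i
    rw [← PadicInt.ext_of_toZModPow]
    intro s
    obtain ⟨f, hf⟩ := hM.dense (M s) y
    rw [← red_apply, h y s f hf, red_apply, h2 f i]
  · intro i j k
    refine ⟨E (M k), hM.isOpen _, fun x _ w _ hw => ?_⟩
    have h3 : red p N k (ρ' w) = 1 := by
      rw [h w k 1 (by rw [map_one, mul_one]; exact (E (M k)).inv_mem hw), map_one, map_one]
    have h4 : red p N k (ρ' (x * w)) = red p N k (ρ' x) := by
      rw [map_mul, map_mul, h3, mul_one]
    exact (red_eq_iff k _ _).1 h4 i j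
  · intro x
    apply red_ext
    intro s
    exact h (ι x) s x (by rw [inv_mul_cancel]; exact one_mem _)

/-- homomorphisms to the `p`-adic integers with prescribed values -/
theorem exists_coord (hD : Chain p n D) (hM : Model D Γ ι E) (v : Fin n → ℤ_[p]) :
    ∃ f : Γ → ℤ_[p], HZ p ⊤ f ∧ ∀ j, f (ι (FreeGroup.of j)) = v j := by
  obtain ⟨ψ, hψ, hv⟩ := M14x.exists_add v
  have e1 : ψ 1 = 0 := by
    have := hψ 1 1
    rw [mul_one] at this
    simpa using this
  let ρ : FreeGroup (Fin n) →* Matrix (Fin 2) (Fin 2) ℤ_[p] :=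
    { toFun := fun g => !![1, ψ g; 0, 1]
      map_one' := by rw [e1, Matrix.one_fin_two]
      map_mul' := fun a b => by
        rw [hψ, Matrix.mul_fin_two]
        simp [add_comm] }
  obtain ⟨ρ', h1, h2, h3, h4⟩ := Q7x.extend hD hM ρ
    (by
      intro y i j hij
      show (!![1, ψ y; 0, 1] : Matrix (Fin 2) (Fin 2) ℤ_[p]) i j = 0
      fin_cases i <;> fin_cases j <;> simp_all)
    (by
      intro y i
      show (!![1, ψ y; 0, 1] : Matrix (Fin 2) (Fin 2) ℤ_[p]) i i = 1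
      fin_cases i <;> simp)
  refine ⟨fun x => ρ' x 0 1, ⟨?_, h3 0 1⟩, ?_⟩
  · intro x _ y _
    show ρ' (x * y) 0 1 = ρ' x 0 1 + ρ' y 0 1
    rw [map_mul, Matrix.mul_apply, Fin.sum_univ_two, h2, h2, one_mul, mul_one, add_comm]
  · intro j
    show ρ' (ι (FreeGroup.of j)) 0 1 = v j
    rw [h4]
    show (!![1, ψ (FreeGroup.of j); 0, 1] : Matrix (Fin 2) (Fin 2) ℤ_[p]) 0 1 = v j
    simp [hv]

end

end Pool.Agent.H371.PM
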