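import Pool.Agent.H371.PM.Q6
import Pool.Agent.H371.PM.Q7

set_option autoImplicit false

namespace Pool.Agent.H371.PM

open Pool.Agent.H371.SE

section
variable {p : ℕ} [Fact p.Prime] {n : ℕ} {D : ℕ → Subgroup (FreeGroup (Fin n))}
  {Γ : Type} [Group Γ] [TopologicalSpace Γ] [IsTopologicalGroup Γ] [CompactSpace Γ] [T2Space Γ]
  {ι : FreeGroup (Fin n) →* Γ} {E : ℕ → Subgroup Γ}
  {n' : ℕ} {D' : ℕ → Subgroup (FreeGroup (Fin n'))}
  {Γ' : Type} [Group Γ'] [TopologicalSpace Γ'] [IsTopologicalGroup Γ'] [CompactSpace Γ']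
  [T2Space Γ'] {ι' : FreeGroup (Fin n') →* Γ'} {E' : ℕ → Subgroup Γ'}

omit [TopologicalSpace Γ] [IsTopologicalGroup Γ] [CompactSpace Γ] [T2Space Γ] in
theorem Q8x_pow (t : MulAut Γ) (k : ℕ) (x : Γ) : (t ^ k) x = (fun y => t y)^[k] x := by
  induction k generalizing x with
  | zero => rfl
  | succ k ih => rw [pow_succ, MulAut.mul_apply, ih, Function.iterate_succ_apply]

/-- the automorphism of the quotient -/
theorem quot_aut (hD : Chain p n D) (hM : Model D Γ ι E) (hD' : Chain p n' D')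
    (hM' : Model D' Γ' ι' E') {t : MulAut Γ} (ht : Continuous t) (htp : t ^ p = 1)
    {q : Γ →* Γ'} (hq : Continuous q) (π : FreeGroup (Fin n) →* FreeGroup (Fin n'))
    (hqπ : ∀ x, q (ι x) = ι' (π x)) (s : FreeGroup (Fin n') →* FreeGroup (Fin n))
    (hs : ∀ y, π (s y) = y) (Y : Set (FreeGroup (Fin n)))
    (hY : Subgroup.closure (Set.range s ∪ Y) = ⊤) (hY1 : ∀ y ∈ Y, π y = 1)
    (hYt : ∀ y ∈ Y, q (t (ι y)) = 1) :
    ∃ t' : MulAut Γ', Continuous t' ∧ t' ^ p = 1 ∧ ∀ x, t' (q x) = q (t x) := by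
  obtain ⟨sh, hsh, hsh'⟩ := exists_ext hD' hM' hD hM (ι.comp s)
  have hqs : q.comp sh = MonoidHom.id Γ' := by
    refine hom_ext hM' (hq.comp hsh) continuous_id Set.univ
      (by rw [Subgroup.closure_univ]) fun x _ => ?_
    show q (sh (ι' x)) = ι' x
    rw [hsh', MonoidHom.comp_apply, hqπ, hs]
  have hqs' : ∀ y, q (sh y) = y := fun y => DFunLike.congr_fun hqs y
  set T : Γ' →* Γ' := q.comp (t.toMonoidHom.comp sh) with hT
  have hTc : Continuous T := hq.comp (ht.comp hsh)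
  have hTq : T.comp q = q.comp t.toMonoidHom := by
    refine hom_ext hM (hTc.comp hq) (hq.comp ht) _ hY fun x hx => ?_
    rcases hx with ⟨y, rfl⟩ | hx
    · show q (t (sh (q (ι (s y))))) = q (t (ι (s y)))
      rw [hqπ, hs, hsh', MonoidHom.comp_apply]
    · show q (t (sh (q (ι x)))) = q (t (ι x))
      rw [hqπ, hY1 x hx, map_one, map_one, map_one, map_one, hYt x hx]
  have hTq' : ∀ x, T (q x) = q (t x) := fun x => DFunLike.congr_fun hTq x
  have hiter : ∀ (k : ℕ) (x : Γ), (T : Γ' → Γ')^[k] (q x) = q ((t ^ k) x) := by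
    intro k
    induction k with
    | zero => intro x; rfl
    | succ k ih =>
      intro x
      rw [Function.iterate_succ_apply, hTq', ih, pow_succ, MulAut.mul_apply]
  have hTp : ∀ y, (T : Γ' → Γ')^[p] y = y := by
    intro y
    conv_lhs => rw [← hqs' y]
    rw [hiter, htp, MulAut.one_apply, hqs']
  obtain ⟨m, hm⟩ : ∃ m, p = m + 1 := ⟨p - 1, by have := (Fact.out : p.Prime).pos; omega⟩
  have hbij : Function.Bijective T := by
    constructor
    · intro x y hxy
      rw [← hTp x, ← hTp y, hm, Function.iterate_succ_apply, Function.iterate_succ_apply, hxy]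
    · intro y
      refine ⟨(T : Γ' → Γ')^[m] y, ?_⟩
      have h1 := hTp y
      rw [hm, Function.iterate_succ_apply'] at h1
      exact h1
  refine ⟨MulEquiv.ofBijective T hbij, hTc, ?_, hTq'⟩
  ext y
  rw [Q8x_pow]
  exact hTp y

end

end Pool.Agent.H371.PM
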