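import Pool.Agent.H371.SE.M3
import Pool.Agent.H371.SE.M4
import Pool.Agent.H371.SE.M8
import Pool.Agent.H371.PM.Q8
import Pool.Agent.H371.PM.Q10
import Pool.Agent.H371.PM.Q12

set_option autoImplicit false

namespace Pool.Agent.H371.PM

open Pool.Agent.H371.SE

namespace Q13

theorem add_conj {Γ M : Type} [Group Γ] [AddCommGroup M] {ψ : Γ → M}
    (h : ∀ x y, ψ (x * y) = ψ x + ψ y) (c x : Γ) : ψ (c * x * c⁻¹) = ψ x := by
  have h1 : ψ 1 = 0 := by
    have h2 := h 1 1
    rw [mul_one] at h2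
    simpa using h2
  have h3 : ψ c + ψ c⁻¹ = 0 := by rw [← h, mul_inv_cancel, h1]
  rw [h, h]
  calc ψ c + ψ x + ψ c⁻¹ = (ψ c + ψ c⁻¹) + ψ x := by abel
    _ = ψ x := by rw [h3, zero_add]

theorem pow_apply_comm {Γ Γ' : Type} [Group Γ] [Group Γ'] {t : MulAut Γ} {t' : MulAut Γ'}
    {q : Γ →* Γ'} (h : ∀ x, t' (q x) = q (t x)) (k : ℕ) :
    ∀ x, (t' ^ k) (q x) = q ((t ^ k) x) := by
  induction k with
  | zero => intro x; simp
  | succ k ih =>
    intro x
    rw [pow_succ, MulAut.mul_apply, h, ih, pow_succ, MulAut.mul_apply]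

end Q13

section
variable {p : ℕ} [Fact p.Prime] {g r : ℕ} {D : ℕ → Subgroup (FreeGroup (Fin (2 * g + r)))}
  {Γ : Type} [Group Γ] [TopologicalSpace Γ] [IsTopologicalGroup Γ] [CompactSpace Γ] [T2Space Γ]
  {ι : FreeGroup (Fin (2 * g + r)) →* Γ} {E : ℕ → Subgroup Γ}

/-- an automorphism of order `p` fixing the boundary does not permute the punctures -/
theorem no_cycle (hD : Chain p (2 * g + r) D) (hM : Model D Γ ι E) {t : MulAut Γ}
    (ht : Continuous t) (htp : t ^ p = 1)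
    (hz : ∀ j, ∃ j', ∃ c : Γ, t (ι (zz g r j)) = c * ι (zz g r j') * c⁻¹)
    (hd : t (ι (dd g r)) = ι (dd g r)) (j : Fin r) :
    ∃ c : Γ, t (ι (zz g r j)) = c * ι (zz g r j) * c⁻¹ := by
  have hp : p.Prime := Fact.out
  choose σ c hσ using hz
  by_contra hcon
  have hj : σ j ≠ j := by
    intro h
    apply hcon
    refine ⟨c j, ?_⟩
    have h1 := hσ j
    rw [h] at h1
    exact h1
  -- the iterates
  have hiter : ∀ (k : ℕ) (i : Fin r), ∃ d : Γ,
      (t ^ k) (ι (zz g r i)) = d * ι (zz g r (σ^[k] i)) * d⁻¹ := by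
    intro k
    induction k with
    | zero => intro i; exact ⟨1, by simp⟩
    | succ k ih =>
      intro i
      obtain ⟨d, hd'⟩ := ih (σ i)
      refine ⟨(t ^ k) (c i) * d, ?_⟩
      rw [pow_succ, MulAut.mul_apply, hσ i, map_mul, map_mul, map_inv, hd',
        Function.iterate_succ_apply]
      group
  have hdist : ∀ (i i' : Fin r) (d : Γ), ι (zz g r i) = d * ι (zz g r i') * d⁻¹ → i' = i := by
    intro i i' d h
    obtain ⟨e, he, hev⟩ := exists_coord hD hM (Pi.single (Fin.natAdd (2 * g) i) 1)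
    have h1 : e (ι (zz g r i)) = 1 := by
      unfold zz
      rw [hev]
      simp
    have h2 : e (ι (zz g r i')) = 1 := by
      rw [← HZ_conj he d, ← h, h1]
    by_contra hne
    have h3 : e (ι (zz g r i')) = 0 := by
      unfold zz
      rw [hev, Pi.single_apply, if_neg]
      intro h4
      exact hne (Fin.natAdd_injective _ _ h4)
    rw [h3] at h2
    exact zero_ne_one h2
  have hper : ∀ i : Fin r, Function.IsPeriodicPt σ p i := by
    intro i
    obtain ⟨d, hd'⟩ := hiter p i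
    rw [htp, MulAut.one_apply] at hd'
    exact hdist _ _ _ hd'
  have hmin : Function.minimalPeriod σ j = p := by
    rcases (Nat.dvd_prime hp).1 (hper j).minimalPeriod_dvd with h | h
    · exact absurd (Function.minimalPeriod_eq_one_iff_isFixedPt.1 h) hj
    · exact h
  let e : Fin p → Fin r := fun k => σ^[k] j
  have he : Function.Injective e := by
    intro k k' hkk
    have h1 := Function.iterate_injOn_Iio_minimalPeriod (f := σ) (x := j)
    apply Fin.ext
    apply h1 _ _ hkk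
    · rw [hmin]; exact k.2
    · rw [hmin]; exact k'.2
  have hoff : ∀ i : Fin r, i ∉ Set.range e → σ i ∉ Set.range e := by
    intro i hi hi'
    obtain ⟨k, hk⟩ := hi'
    apply hi
    have hk' : σ^[(k : ℕ)] j = σ i := hk
    refine ⟨⟨(p - 1 + k) % p, Nat.mod_lt _ hp.pos⟩, ?_⟩
    change σ^[(p - 1 + k) % p] j = i
    rw [(hper j).iterate_mod_apply, Function.iterate_add_apply, hk',
      ← Function.iterate_succ_apply, Nat.succ_eq_add_one, Nat.sub_add_cancel hp.one_lt.le]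
    exact hper i
  obtain ⟨π, s, hs, hπ0, hπe, hπd, hcl⟩ := kill_off g r p e he
  obtain ⟨D', hD'⟩ := exists_chain p (2 * g + p)
  obtain ⟨Γ', _, _, _, _, _, ι', E', hM'⟩ := exists_model D' hD'.anti hD'.normal hD'.fin
  obtain ⟨q, hq, hqι⟩ := exists_ext hD hM hD' hM' (ι'.comp π)
  have hqπ : ∀ x, q (ι x) = ι' (π x) := fun x => hqι x
  obtain ⟨t', ht', htp', htq⟩ := quot_aut hD hM hD' hM' ht htp hq π hqπ s hs
    {y | ∃ j, j ∉ Set.range e ∧ y = zz g r j} hcl
    (by
      rintro y ⟨i, hi, rfl⟩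
      exact hπ0 i hi)
    (by
      rintro y ⟨i, hi, rfl⟩
      rw [hσ i, map_mul, map_mul, map_inv, hqπ, hπ0 _ (hoff i hi), map_one, mul_one,
        mul_inv_cancel])
  have hw : t' (q (ι (dd g r))) = q (ι (dd g r)) := by rw [htq, hd]
  -- the values on the boundary
  have hval : ∀ ψ : Γ' → ZMod p, AddOn ⊤ ψ →
      ψ (q (ι (dd g r))) = ∑ k, ψ (ι' (zz g p k)) := by
    intro ψ hψ
    rw [hqπ]
    exact hπd (ZMod p) (fun x => ψ (ι' x)) (fun x y => by
      rw [map_mul]
      exact hψ _ trivial _ trivial)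
  have hnorm : ∀ ψ : Γ' → ZMod p, AddOn ⊤ ψ →
      Nf p t' ψ (q (ι (zz g r j))) = ∑ k, ψ (ι' (zz g p k)) := by
    intro ψ hψ
    unfold Nf
    rw [Finset.sum_range]
    refine Finset.sum_congr rfl fun k _ => ?_
    obtain ⟨d, hd'⟩ := hiter k j
    rw [Q13.pow_apply_comm htq, hd', map_mul, map_mul, map_inv,
      Q13.add_conj (fun x y => hψ x trivial y trivial), hqπ]
    have h1 : π (zz g r (σ^[(k : ℕ)] j)) = zz g p k := hπe k
    rw [h1]
  have hzero : ∀ ψ : Γ' → ZMod p, AddOn ⊤ ψ → LC ⊤ ψ → ψ (q (ι (dd g r))) = 0 := by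
    intro ψ h1 h2
    refine fixed_zero (Model.good hD' hM') ht' htp' hw ?_ h1 h2
    intro ψ' h3 _ h5
    rw [hval ψ' h3, ← hnorm ψ' h3, h5]
  -- the coordinate
  obtain ⟨f, hf, hfv⟩ := exists_coord hD' hM' (Pi.single (Fin.natAdd (2 * g) ⟨0, hp.pos⟩) 1)
  obtain ⟨hf1, hf2⟩ := HZ_mod hf
  have h1 := hzero _ hf1 hf2
  rw [hval _ hf1] at h1
  rw [Finset.sum_eq_single (⟨0, hp.pos⟩ : Fin p)] at h1
  · simp only [zz] at h1
    rw [hfv] at h1
    simp at h1
  · intro k _ hk
    simp only [zz]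
    rw [hfv, Pi.single_apply, if_neg, map_zero]
    intro h4
    exact hk (Fin.natAdd_injective _ _ h4)
  · intro h
    exact absurd (Finset.mem_univ _) h

end

end Pool.Agent.H371.PM
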