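import Pool.Agent.H371.PM.Q6
import Pool.Agent.H371.PM.Q7

set_option autoImplicit false

namespace Pool.Agent.H371.PM

open Pool.Agent.H371.SE

section
variable {p : ℕ} [Fact p.Prime] {n : ℕ} {D : ℕ → Subgroup (FreeGroup (Fin n))}
  {Γ : Type} [Group Γ] [TopologicalSpace Γ] [IsTopologicalGroup Γ] [CompactSpace Γ] [T2Space Γ]
  {ι : FreeGroup (Fin n) →* Γ} {E : ℕ → Subgroup Γ}
  {n' : ℕ} {D' : ℕ → Subgroup (FreeGroup (Fin n'))}
  {Γ' : Type} [Group Γ'] [TopologicalSpace Γ'] [IsTopologicalGroup Γ'] [CompactSpace Γ']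
  [T2Space Γ'] {ι' : FreeGroup (Fin n') →* Γ'} {E' : ℕ → Subgroup Γ'}

/-- an automorphism of order `p` which is trivial modulo the normal closure of `Y` -/
theorem triv_of_quot (hD : Chain p n D) (hM : Model D Γ ι E) (hD' : Chain p n' D')
    (hM' : Model D' Γ' ι' E') {t : MulAut Γ} (ht : Continuous t) (htp : t ^ p = 1)
    {q : Γ →* Γ'} (hq : Continuous q) (π : FreeGroup (Fin n) →* FreeGroup (Fin n'))
    (hqπ : ∀ x, q (ι x) = ι' (π x)) (s : FreeGroup (Fin n') →* FreeGroup (Fin n))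
    (hs : ∀ y, π (s y) = y) (Y : Set (FreeGroup (Fin n)))
    (hY : Subgroup.closure (Set.range s ∪ Y) = ⊤) (hY1 : ∀ y ∈ Y, π y = 1)
    (hqt : ∀ x, q (t x) = q x) {f : Γ → ℤ_[p]} (hf : HZ p ⊤ f)
    (hYf : ∀ y ∈ Y, f (t (ι y)) = f (ι y)) (x : Γ) : f (t x) = f x := by
  obtain ⟨sh, hsh, hshi⟩ := exists_ext hD' hM' hD hM (ι.comp s)
  have hd : HZ p ⊤ (fun x => f (t x) - f x) := HZ_sub (HZ_aut hf ht) hf
  obtain ⟨d, hdef⟩ : ∃ d : Γ → ℤ_[p], d = fun x => f (t x) - f x := ⟨_, rfl⟩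
  rw [← hdef] at hd
  have hd1 : d 1 = 0 := by
    have h := hd.1 1 (Subgroup.mem_top _) 1 (Subgroup.mem_top _)
    rw [mul_one] at h
    exact left_eq_add.1 h
  have hd' : HZ p ⊤ (fun x => d ((sh.comp q) x)) := HZ_comp hd (hsh.comp hq)
  have hdd : d = fun x => d ((sh.comp q) x) := by
    refine HZ_ext hM hd hd' _ hY ?_
    rintro z (⟨y, rfl⟩ | hz)
    · change d (ι (s y)) = d (sh (q (ι (s y))))
      rw [hqπ, hs, hshi]
      rfl
    · change d (ι z) = d (sh (q (ι z)))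
      rw [hqπ, hY1 z hz, map_one, map_one, hd1, hdef]
      change f (t (ι z)) - f (ι z) = 0
      rw [hYf z hz, sub_self]
  have hdt : ∀ x, d (t x) = d x := by
    intro x
    have h1 : d (t x) = d (sh (q (t x))) := congrFun hdd (t x)
    have h2 : d x = d (sh (q x)) := congrFun hdd x
    rw [h1, h2, hqt]
  have hft : ∀ y, f (t y) = f y + d y := by
    intro y
    rw [hdef]
    ring
  have hk : ∀ k : ℕ, d ((t ^ k) x) = d x ∧ f ((t ^ k) x) = f x + k * d x := by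
    intro k
    induction k with
    | zero =>
      rw [pow_zero, MulAut.one_apply]
      exact ⟨rfl, by rw [Nat.cast_zero, zero_mul, add_zero]⟩
    | succ k ih =>
      rw [pow_succ', MulAut.mul_apply]
      refine ⟨by rw [hdt, ih.1], ?_⟩
      rw [hft, ih.1, ih.2, Nat.cast_succ]
      ring
  have hp := (hk p).2
  rw [htp, MulAut.one_apply] at hp
  have hz : (p : ℤ_[p]) * d x = 0 := by
    have := left_eq_add.1 hp
    exact this
  have hp0 : (p : ℤ_[p]) ≠ 0 := Nat.cast_ne_zero.2 (Fact.out : p.Prime).ne_zero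
  rw [hft, (mul_eq_zero.1 hz).resolve_left hp0, add_zero]

end

end Pool.Agent.H371.PM
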