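import Pool.Agent.H371.PM.Defs

set_option autoImplicit false

namespace Pool.Agent.H371.PM

open Pool.Agent.H371.SE

namespace Q9x

theorem prod_single {G : Type} [Monoid G] {r : ℕ} (i : Fin r) (a : G) (l : List (Fin r)) (hn : l.Nodup)
    (hi : i ∈ l) : (l.map fun j => if j = i then a else 1).prod = a := by
  induction l with
  | nil => exact absurd hi List.not_mem_nil
  | cons j l ih =>
    rw [List.nodup_cons] at hn
    rw [List.map_cons, List.prod_cons]
    by_cases h : j = i
    · rw [if_pos h]
      have h1 : (l.map fun j => if j = i then a else 1).prod = 1 := by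
        apply List.prod_eq_one
        intro x hx
        rw [List.mem_map] at hx
        obtain ⟨j', hj', rfl⟩ := hx
        rw [if_neg]
        rintro rfl
        exact hn.1 (h ▸ hj')
      rw [h1, mul_one]
    · rw [if_neg h, one_mul]
      apply ih hn.2
      rcases List.mem_cons.1 hi with h' | h'
      · exact absurd h'.symm h
      · exact h'

theorem mem_of_prod {G : Type} [Group G] {r : ℕ} (H : Subgroup G) (f : Fin r → G) (i : Fin r) (l : List (Fin r))
    (hn : l.Nodup) (hi : i ∈ l) (hf : ∀ j, j ≠ i → f j ∈ H) (hp : (l.map f).prod ∈ H) : f i ∈ H := by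
  induction l with
  | nil => exact absurd hi List.not_mem_nil
  | cons j l ih =>
    rw [List.nodup_cons] at hn
    rw [List.map_cons, List.prod_cons] at hp
    by_cases h : j = i
    · subst h
      have h1 : (l.map f).prod ∈ H := by
        apply Subgroup.list_prod_mem
        intro x hx
        rw [List.mem_map] at hx
        obtain ⟨j', hj', rfl⟩ := hx
        apply hf
        rintro rfl
        exact hn.1 hj'
      exact (H.mul_mem_cancel_right h1).1 hp
    · have h2 : (l.map f).prod ∈ H := (H.mul_mem_cancel_left (hf j h)).1 hp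
      apply ih hn.2 _ h2
      rcases List.mem_cons.1 hi with h' | h'
      · exact absurd h'.symm h
      · exact h'

/-- the inclusion of the free group without punctures -/
def inc (g r : ℕ) : FreeGroup (Fin (2 * g)) →* FreeGroup (Fin (2 * g + r)) := FreeGroup.map (Fin.castAdd r)

theorem inc_of (g r : ℕ) (k : Fin (2 * g)) : inc g r (FreeGroup.of k) = FreeGroup.of (Fin.castAdd r k) :=
  FreeGroup.map.of

theorem dd_eq (g r : ℕ) : dd g r = inc g r (surf g) * ((List.finRange r).map (zz g r)).prod := by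
  unfold dd surf
  rw [map_list_prod, List.map_ofFn, ← List.ofFn_eq_map]
  congr 2

/-- killing -/
def kil (g r : ℕ) (c : Fin r → FreeGroup (Fin (2 * g))) : FreeGroup (Fin (2 * g + r)) →* FreeGroup (Fin (2 * g)) :=
  FreeGroup.lift (Fin.addCases (fun k => FreeGroup.of k) c)

theorem kil_inc (g r : ℕ) (c : Fin r → FreeGroup (Fin (2 * g))) (y : FreeGroup (Fin (2 * g))) :
    kil g r c (inc g r y) = y := by
  have h : (kil g r c).comp (inc g r) = MonoidHom.id _ := by
    apply FreeGroup.ext_hom
    intro k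
    rw [MonoidHom.comp_apply, inc_of]
    unfold kil
    rw [FreeGroup.lift_apply_of, Fin.addCases_left]
    rfl
  exact DFunLike.congr_fun h y

theorem kil_zz (g r : ℕ) (c : Fin r → FreeGroup (Fin (2 * g))) (j : Fin r) : kil g r c (zz g r j) = c j := by
  unfold kil zz
  rw [FreeGroup.lift_apply_of, Fin.addCases_right]

theorem kil_dd (g r : ℕ) (c : Fin r → FreeGroup (Fin (2 * g))) :
    kil g r c (dd g r) = surf g * ((List.finRange r).map c).prod := by
  rw [dd_eq, map_mul, kil_inc, map_list_prod, List.map_map]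
  congr 3
  funext j
  exact kil_zz g r c j

theorem top_of (g r : ℕ) (H : Subgroup (FreeGroup (Fin (2 * g + r)))) (h1 : ∀ y, inc g r y ∈ H)
    (h2 : ∀ j, zz g r j ∈ H) : H = ⊤ := by
  rw [eq_top_iff, ← FreeGroup.closure_range_of, Subgroup.closure_le]
  rintro _ ⟨k, rfl⟩
  refine Fin.addCases (fun k => ?_) (fun j => ?_) k
  · rw [← inc_of]
    exact h1 _
  · exact h2 j

end Q9x

open Q9x

/-- kill all punctures except the puncture `i`, and the last peripheral element -/
theorem kill_but (g r : ℕ) (i : Fin r) :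
    ∃ (π : FreeGroup (Fin (2 * g + r)) →* FreeGroup (Fin (2 * g)))
      (s : FreeGroup (Fin (2 * g)) →* FreeGroup (Fin (2 * g + r))),
      (∀ y, π (s y) = y) ∧ (∀ j, j ≠ i → π (zz g r j) = 1) ∧ π (zz g r i) = (surf g)⁻¹ ∧
      π (dd g r) = 1 ∧
      Subgroup.closure (Set.range s ∪ ({y | ∃ j, j ≠ i ∧ y = zz g r j} ∪ {dd g r})) = ⊤ := by
  refine ⟨kil g r (fun j => if j = i then (surf g)⁻¹ else 1), inc g r, kil_inc g r _, ?_, ?_, ?_, ?_⟩
  · intro j hj
    rw [kil_zz]
    exact if_neg hj
  · rw [kil_zz]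
    exact if_pos rfl
  · rw [kil_dd, prod_single i _ _ (List.nodup_finRange r) (List.mem_finRange i), mul_inv_cancel]
  · set H := Subgroup.closure (Set.range (inc g r) ∪ ({y | ∃ j, j ≠ i ∧ y = zz g r j} ∪ {dd g r})) with hH
    have h1 : ∀ y, inc g r y ∈ H := fun y => Subgroup.subset_closure (Or.inl ⟨y, rfl⟩)
    have h2 : ∀ j, j ≠ i → zz g r j ∈ H := fun j hj => Subgroup.subset_closure (Or.inr (Or.inl ⟨j, hj, rfl⟩))
    have h3 : dd g r ∈ H := Subgroup.subset_closure (Or.inr (Or.inr rfl))
    rw [dd_eq] at h3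
    have h4 := (H.mul_mem_cancel_left (h1 (surf g))).1 h3
    have h5 := mem_of_prod H (zz g r) i _ (List.nodup_finRange r) (List.mem_finRange i) h2 h4
    refine top_of g r H h1 fun j => ?_
    by_cases hj : j = i
    · rw [hj]
      exact h5
    · exact h2 j hj

/-- kill all punctures -/
theorem kill_all (g r : ℕ) :
    ∃ (π : FreeGroup (Fin (2 * g + r)) →* FreeGroup (Fin (2 * g)))
      (s : FreeGroup (Fin (2 * g)) →* FreeGroup (Fin (2 * g + r))),
      (∀ y, π (s y) = y) ∧ (∀ j, π (zz g r j) = 1) ∧ π (dd g r) = surf g ∧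
      Subgroup.closure (Set.range s ∪ Set.range (zz g r)) = ⊤ := by
  refine ⟨kil g r (fun _ => 1), inc g r, kil_inc g r _, ?_, ?_, ?_⟩
  · intro j
    rw [kil_zz]
  · rw [kil_dd]
    have h1 : ((List.finRange r).map fun _ => (1 : FreeGroup (Fin (2 * g)))).prod = 1 := by
      apply List.prod_eq_one
      intro x hx
      rw [List.mem_map] at hx
      obtain ⟨_, _, rfl⟩ := hx
      rfl
    rw [h1, mul_one]
  · exact top_of g r _ (fun y => Subgroup.subset_closure (Or.inl ⟨y, rfl⟩))
      (fun j => Subgroup.subset_closure (Or.inr ⟨j, rfl⟩))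

end Pool.Agent.H371.PM
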