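import Pool.Agent.H371.SE.M3
import Pool.Agent.H371.PM.Q8
import Pool.Agent.H371.PM.Q8b
import Pool.Agent.H371.PM.Q9
import Pool.Agent.H371.PM.Q13

set_option autoImplicit false

namespace Pool.Agent.H371.PM

open Pool.Agent.H371.SE

namespace Q14x

theorem hz_conj {p : ℕ} [Fact p.Prime] {Γ : Type} [Group Γ] [TopologicalSpace Γ] {f : Γ → ℤ_[p]}
    (hf : HZ p ⊤ f) (c x : Γ) : f (c * x * c⁻¹) = f x := by
  have h : ∀ x y : Γ, f (x * y) = f x + f y := fun x y =>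
    hf.1 x (Subgroup.mem_top _) y (Subgroup.mem_top _)
  have h1 : f 1 = 0 := by
    have h2 := h 1 1
    rw [mul_one] at h2
    have h3 : f 1 + f 1 = f 1 + 0 := by rw [add_zero]; exact h2.symm
    exact add_left_cancel h3
  have h4 : f c + f c⁻¹ = 0 := by rw [← h, mul_inv_cancel, h1]
  rw [h, h]
  linear_combination h4

end Q14x

section
variable {p : ℕ} [Fact p.Prime] {g r : ℕ} {D : ℕ → Subgroup (FreeGroup (Fin (2 * g + r)))}
  {Γ : Type} [Group Γ] [TopologicalSpace Γ] [IsTopologicalGroup Γ] [CompactSpace Γ] [T2Space Γ]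
  {ι : FreeGroup (Fin (2 * g + r)) →* Γ} {E : ℕ → Subgroup Γ}

namespace Q14x

/-- the common part -/
theorem core (hD : Chain p (2 * g + r) D) (hM : Model D Γ ι E) {t : MulAut Γ}
    (ht : Continuous t) (htp : t ^ p = 1)
    (π : FreeGroup (Fin (2 * g + r)) →* FreeGroup (Fin (2 * g)))
    (s : FreeGroup (Fin (2 * g)) →* FreeGroup (Fin (2 * g + r)))
    (hs : ∀ y, π (s y) = y) (Y : Set (FreeGroup (Fin (2 * g + r))))
    (hcl : Subgroup.closure (Set.range s ∪ Y) = ⊤) (hY1 : ∀ y ∈ Y, π y = 1)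
    (hYc : ∀ y ∈ Y, ∃ c : Γ, t (ι y) = c * ι y * c⁻¹)
    (y0 : FreeGroup (Fin (2 * g + r))) (hy0 : t (ι y0) = ι y0)
    (hπ0 : π y0 = surf g ∨ π y0 = (surf g)⁻¹) {f : Γ → ℤ_[p]} (hf : HZ p ⊤ f) (x : Γ) :
    f (t x) = f x := by
  obtain ⟨D', hD'⟩ := exists_chain p (2 * g)
  obtain ⟨Γ', _, _, _, _, _, ι', E', hM'⟩ := exists_model D' hD'.anti hD'.normal hD'.fin
  obtain ⟨q, hq, hqι⟩ := exists_ext hD hM hD' hM' (ι'.comp π)
  have hqπ : ∀ x, q (ι x) = ι' (π x) := hqι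
  have hYt : ∀ y ∈ Y, q (t (ι y)) = 1 := by
    intro y hy
    obtain ⟨c, hc⟩ := hYc y hy
    rw [hc, map_mul, map_mul, hqπ, hY1 y hy, map_one, mul_one, ← map_mul, mul_inv_cancel, map_one]
  obtain ⟨t', ht', htp', htq⟩ := quot_aut hD hM hD' hM' ht htp hq π hqπ s hs Y hcl hY1 hYt
  have h0 : t' (ι' (π y0)) = ι' (π y0) := by
    rw [← hqπ, htq, hy0]
  have h1 : t' (ι' (surf g)) = ι' (surf g) := by
    rcases hπ0 with h | h
    · rw [h] at h0
      exact h0
    · rw [h, map_inv, map_inv] at h0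
      exact inv_injective h0
  have h2 : t' = 1 := Model.rigid hD' hM' ht' htp' {surf g}
    (nd_surf p g (surf g) (by rw [mul_inv_cancel]; exact one_mem _)) (by
      intro z hz
      rw [Set.mem_singleton_iff] at hz
      rw [hz]
      exact h1)
  have hqt : ∀ x, q (t x) = q x := by
    intro x
    rw [← htq, h2]
    rfl
  have hYf : ∀ y ∈ Y, f (t (ι y)) = f (ι y) := by
    intro y hy
    obtain ⟨c, hc⟩ := hYc y hy
    rw [hc, hz_conj hf]
  exact triv_of_quot hD hM hD' hM' ht htp hq π hqπ s hs Y hcl hY1 hqt hf hYf x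

end Q14x

/-- automorphisms of order `p` fixing the boundary are trivial on the abelianization -/
theorem main_bdry (hD : Chain p (2 * g + r) D) (hM : Model D Γ ι E) {t : MulAut Γ}
    (ht : Continuous t) (htp : t ^ p = 1)
    (hz : ∀ j, ∃ j', ∃ c : Γ, t (ι (zz g r j)) = c * ι (zz g r j') * c⁻¹)
    (hd : t (ι (dd g r)) = ι (dd g r)) {f : Γ → ℤ_[p]} (hf : HZ p ⊤ f) (x : Γ) :
    f (t x) = f x := by
  have hz' := no_cycle hD hM ht htp hz hd
  obtain ⟨π, s, hs, hz1, hdd, hcl⟩ := kill_all g r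
  refine Q14x.core hD hM ht htp π s hs (Set.range (zz g r)) hcl ?_ ?_ (dd g r) hd (Or.inl hdd) hf x
  · rintro _ ⟨j, rfl⟩
    exact hz1 j
  · rintro _ ⟨j, rfl⟩
    exact hz' j

/-- automorphisms of order `p` fixing a puncture are trivial on the abelianization -/
theorem main_fix (hD : Chain p (2 * g + r) D) (hM : Model D Γ ι E) {t : MulAut Γ}
    (ht : Continuous t) (htp : t ^ p = 1)
    (hz : ∀ j, ∃ c : Γ, t (ι (zz g r j)) = c * ι (zz g r j) * c⁻¹)
    (hd : ∃ c : Γ, t (ι (dd g r)) = c * ι (dd g r) * c⁻¹)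
    {i : Fin r} (hi : t (ι (zz g r i)) = ι (zz g r i)) {f : Γ → ℤ_[p]} (hf : HZ p ⊤ f) (x : Γ) :
    f (t x) = f x := by
  obtain ⟨π, s, hs, hzj, hzi, hdd, hcl⟩ := kill_but g r i
  refine Q14x.core hD hM ht htp π s hs ({y | ∃ j, j ≠ i ∧ y = zz g r j} ∪ {dd g r}) hcl ?_ ?_
    (zz g r i) hi (Or.inr hzi) hf x
  · rintro y (⟨j, hj, rfl⟩ | hy)
    · exact hzj j hj
    · rw [Set.mem_singleton_iff] at hy
      rw [hy]
      exact hdd
  · rintro y (⟨j, hj, rfl⟩ | hy)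
    · exact hz j
    · rw [Set.mem_singleton_iff] at hy
      rw [hy]
      exact hd

end

end Pool.Agent.H371.PM
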