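import Pool.Agent.H371.PM.Q5
import Pool.Agent.H371.PM.Q7
import Pool.Agent.H371.SE.A2

set_option autoImplicit false

namespace Pool.Agent.H371.PM

open Pool.Agent.H371.SE

namespace Q15x

section
variable {p : ℕ} [Fact p.Prime] {Γ : Type} [Group Γ] [TopologicalSpace Γ]

theorem cz_smul {U : Subgroup Γ} {f : Γ → ℤ_[p]} (a : ℤ_[p]) (hf : CZ p U f) :
    CZ p U (fun x => a * f x) := by
  intro k
  obtain ⟨W, h1, h2⟩ := hf k
  refine ⟨W, h1, fun x hx w hw hwW => ?_⟩
  have h3 := h2 x hx w hw hwW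
  have e : a * f (x * w) - a * f x = a * (f (x * w) - f x) := by ring
  change (p : ℤ_[p]) ^ k ∣ a * f (x * w) - a * f x
  rw [e]
  exact Dvd.dvd.mul_left h3 a

theorem hz_lin {n : ℕ} (a : Fin n → ℤ_[p]) (f : Fin n → Γ → ℤ_[p]) (hf : ∀ i, HZ p ⊤ (f i)) :
    HZ p ⊤ (fun x => ∑ i, a i * f i x) := by
  constructor
  · intro x hx y hy
    change ∑ i, a i * f i (x * y) = (∑ i, a i * f i x) + ∑ i, a i * f i y
    rw [← Finset.sum_add_distrib]
    refine Finset.sum_congr rfl fun i _ => ?_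
    rw [(hf i).1 x hx y hy, mul_add]
  · exact Pool.Agent.H371.SE.A2x.cz_sum Finset.univ (fun i x => a i * f i x) (fun i => cz_smul (a i) (hf i).2)

end

end Q15x

section
variable {p : ℕ} [Fact p.Prime] {g r : ℕ} {D : ℕ → Subgroup (FreeGroup (Fin (2 * g + r)))}
  {Γ : Type} [Group Γ] [TopologicalSpace Γ] [IsTopologicalGroup Γ] [CompactSpace Γ] [T2Space Γ]
  {ι : FreeGroup (Fin (2 * g + r)) →* Γ} {E : ℕ → Subgroup Γ}

/-- the count of fixed points for an automorphism preserving the conjugacy classes of the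
punctures none of which can be fixed -/
theorem count (hD : Chain p (2 * g + r) D) (hM : Model D Γ ι E) {t : MulAut Γ}
    (ht : Continuous t) (htp : t ^ p = 1) (c : Fin r → Γ)
    (hz : ∀ j, t (ι (zz g r j)) = c j * ι (zz g r j) * (c j)⁻¹) (u : Fin r → ℤ_[p])
    (hu : ∀ j, ¬ (p : ℤ_[p]) ∣ u j)
    (hN : ∀ j, ∀ f : Γ → ℤ_[p], HZ p ⊤ f →
      ∑ i ∈ Finset.range p, f ((t ^ i) (c j)⁻¹) = u j * f (ι (zz g r j))) :
    r * (p - 1) ≤ 2 * g := by
  classical
  choose e he hv using fun i : Fin (2 * g + r) => exists_coord hD hM (Pi.single i (1 : ℤ_[p]))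
  -- the coordinates
  obtain ⟨ab, hab⟩ : ∃ ab : Γ → (Fin (2 * g + r) → ℤ_[p]), ∀ x i, ab x i = e i x :=
    ⟨fun x i => e i x, fun _ _ => rfl⟩
  have hbas : ∀ j, ab (ι (FreeGroup.of j)) = Pi.single j (1 : ℤ_[p]) := by
    intro j
    funext i
    rw [hab, hv]
    by_cases h : i = j
    · rw [h, Pi.single_eq_same]
    · rw [Pi.single_eq_of_ne h, Pi.single_eq_of_ne (Ne.symm h)]
  obtain ⟨X, hX⟩ : ∃ X : Module.End ℤ_[p] (Fin (2 * g + r) → ℤ_[p]),
      ∀ w i, X w i = ∑ j, e i (t (ι (FreeGroup.of j))) * w j := by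
    refine ⟨Matrix.toLin' (Matrix.of fun i j => e i (t (ι (FreeGroup.of j)))), fun w i => ?_⟩
    rw [Matrix.toLin'_apply]
    rfl
  -- `X` is induced by `t`
  have hXt : ∀ x, X (ab x) = ab (t x) := by
    intro x
    funext i
    rw [hX, hab]
    have hgen : Subgroup.closure (Set.range (FreeGroup.of : Fin (2 * g + r) → _)) = ⊤ :=
      FreeGroup.closure_range_of _
    have h1 := HZ_ext hM
      (Q15x.hz_lin (fun j => e i (t (ι (FreeGroup.of j)))) e he) (HZ_aut (he i) ht)
      (Set.range FreeGroup.of) hgen (by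
        rintro _ ⟨k, rfl⟩
        change ∑ j, e i (t (ι (FreeGroup.of j))) * e j (ι (FreeGroup.of k)) =
          e i (t (ι (FreeGroup.of k)))
        rw [Finset.sum_eq_single k]
        · rw [hv, Pi.single_eq_same, mul_one]
        · intro j _ hjk
          rw [hv, Pi.single_eq_of_ne (Ne.symm hjk), mul_zero]
        · intro h
          exact absurd (Finset.mem_univ _) h)
    have h2 := congrFun h1 x
    change ∑ j, e i (t (ι (FreeGroup.of j))) * e j x = e i (t x) at h2
    rw [← h2]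
    exact Finset.sum_congr rfl fun j _ => by rw [hab]
  have hXk : ∀ (k : ℕ) (x : Γ), (X ^ k) (ab x) = ab ((t ^ k) x) := by
    intro k
    induction k with
    | zero => intro x; rfl
    | succ k ih =>
      intro x
      rw [pow_succ, pow_succ]
      change (X ^ k) (X (ab x)) = ab ((t ^ k) (t x))
      rw [hXt, ih]
  have hXp : X ^ p = 1 := by
    refine LinearMap.pi_ext fun i a => ?_
    have h1 : (Pi.single i a : Fin (2 * g + r) → ℤ_[p]) = a • ab (ι (FreeGroup.of i)) := by
      rw [hbas]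
      funext k
      rw [Pi.smul_apply, smul_eq_mul]
      by_cases h : k = i
      · rw [h, Pi.single_eq_same, Pi.single_eq_same, mul_one]
      · rw [Pi.single_eq_of_ne h, Pi.single_eq_of_ne h, mul_zero]
    rw [h1, map_smul, map_smul, hXk, htp]
    rfl
  -- the punctures
  have hvs : ∀ j : Fin r, ab (ι (zz g r j)) = Pi.single (Fin.natAdd (2 * g) j) (1 : ℤ_[p]) :=
    fun j => hbas _
  have hXv : ∀ j : Fin r, X (ab (ι (zz g r j))) = ab (ι (zz g r j)) := by
    intro j
    rw [hXt, hz]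
    funext i
    rw [hab, hab]
    exact HZ_conj (he i) _ _
  have hne : ∀ (k : Fin (2 * g)) (j : Fin r), Fin.castAdd r k ≠ Fin.natAdd (2 * g) j := by
    intro k j h
    have h1 := congrArg Fin.val h
    rw [Fin.val_castAdd, Fin.val_natAdd] at h1
    have := k.2
    omega
  have hinj : ∀ (k j : Fin r), k ≠ j → Fin.natAdd (2 * g) k ≠ Fin.natAdd (2 * g) j := by
    intro k j hkj h
    apply hkj
    have h1 := congrArg Fin.val h
    rw [Fin.val_natAdd, Fin.val_natAdd] at h1
    apply Fin.ext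
    omega
  have hcomb : ∀ (a : Fin r → ℤ_[p]) (m : Fin r),
      (∑ i, a i • ab (ι (zz g r i))) (Fin.natAdd (2 * g) m) = a m := by
    intro a m
    rw [Finset.sum_apply, Finset.sum_eq_single m]
    · rw [Pi.smul_apply, hvs, Pi.single_eq_same, smul_eq_mul, mul_one]
    · intro j _ hjm
      rw [Pi.smul_apply, hvs, Pi.single_eq_of_ne (hinj m j (Ne.symm hjm)), smul_zero]
    · intro h
      exact absurd (Finset.mem_univ _) h
  have hcomb0 : ∀ (a : Fin r → ℤ_[p]) (m : Fin (2 * g)),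
      (∑ i, a i • ab (ι (zz g r i))) (Fin.castAdd r m) = 0 := by
    intro a m
    rw [Finset.sum_apply]
    refine Finset.sum_eq_zero fun j _ => ?_
    rw [Pi.smul_apply, hvs, Pi.single_eq_of_ne (hne m j), smul_zero]
  refine lin p X hXp (LinearMap.funLeft ℤ_[p] ℤ_[p] (Fin.castAdd r : Fin (2 * g) → _)) ?_
    (fun j => ab (ι (zz g r j))) ?_ ?_ u hu (fun j => ab ((c j)⁻¹)) ?_
  · intro q hq
    have hq' : ∀ m : Fin (2 * g), q (Fin.castAdd r m) = 0 := fun m => congrFun hq m
    have h1 : q = ∑ i, q (Fin.natAdd (2 * g) i) • ab (ι (zz g r i)) := by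
      funext m
      refine Fin.addCases (fun m => ?_) (fun m => ?_) m
      · rw [hq', hcomb0]
      · rw [hcomb]
    have h2 : X (∑ i, q (Fin.natAdd (2 * g) i) • ab (ι (zz g r i))) =
        ∑ i, q (Fin.natAdd (2 * g) i) • ab (ι (zz g r i)) := by
      rw [map_sum]
      exact Finset.sum_congr rfl fun i _ => by rw [map_smul, hXv]
    rw [← h1] at h2
    exact h2
  · intro j
    funext m
    change ab (ι (zz g r j)) (Fin.castAdd r m) = 0
    rw [hvs, Pi.single_eq_of_ne (hne m j)]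
  · intro a q _ h i
    refine ⟨q (Fin.natAdd (2 * g) i), ?_⟩
    have h1 := congrFun h (Fin.natAdd (2 * g) i)
    rw [hcomb] at h1
    rw [h1]
    rfl
  · intro j
    funext m
    rw [Finset.sum_apply, Pi.smul_apply, smul_eq_mul, hab, ← hN j (e m) (he m)]
    refine Finset.sum_congr rfl fun k _ => ?_
    rw [hXk, hab]

end

end Pool.Agent.H371.PM
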