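import Pool.Agent.H371.PM.Q4
import Pool.Agent.H371.PM.Q15
import Pool.Agent.H371.PM.Q14

set_option autoImplicit false

namespace Pool.Agent.H371.PM

open Pool.Agent.H371.SE

section
variable {p : ℕ} [Fact p.Prime] {g r : ℕ} {D : ℕ → Subgroup (FreeGroup (Fin (2 * g + r)))}
  {Γ : Type} [Group Γ] [TopologicalSpace Γ] [IsTopologicalGroup Γ] [CompactSpace Γ] [T2Space Γ]
  {ι : FreeGroup (Fin (2 * g + r)) →* Γ} {E : ℕ → Subgroup Γ}

/-- automorphisms of order `p` preserving many conjugacy classes of punctures are trivial on the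
abelianization -/
theorem main_pure (hD : Chain p (2 * g + r) D) (hM : Model D Γ ι E) (hr : 2 * g < r * (p - 1))
    {t : MulAut Γ} (ht : Continuous t) (htp : t ^ p = 1)
    (hz : ∀ j, ∃ c : Γ, t (ι (zz g r j)) = c * ι (zz g r j) * c⁻¹)
    (hd : ∃ c : Γ, t (ι (dd g r)) = c * ι (dd g r) * c⁻¹)
    {f : Γ → ℤ_[p]} (hf : HZ p ⊤ f) (x : Γ) : f (t x) = f x := by
  have hG : Good p Γ := Model.good hD hM
  choose c hc using hz
  have key : ∀ j, ∃ u : ℤ_[p], (∀ f : Γ → ℤ_[p], HZ p ⊤ f →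
        ∑ i ∈ Finset.range p, f ((t ^ i) (c j)⁻¹) = u * f (ι (zz g r j))) ∧
      ((p : ℤ_[p]) ∣ u → ∃ d : Γ, (MulAut.conj d * t) (ι (zz g r j)) = ι (zz g r j) ∧
        (MulAut.conj d * t) ^ p = 1) := by
    intro j
    obtain ⟨f₁, hf₁, hv⟩ := exists_coord hD hM (Pi.single (Fin.natAdd (2 * g) j) (1 : ℤ_[p]))
    obtain ⟨h1, h2⟩ := HZ_mod hf₁
    have h3 : f₁ (ι (zz g r j)) = 1 := by
      unfold zz
      rw [hv, Pi.single_eq_same]
    refine exists_unit hG ht htp (hc j) h1 h2 ?_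
    show PadicInt.toZMod (f₁ (ι (zz g r j))) ≠ 0
    rw [h3, map_one]
    exact one_ne_zero
  choose u hu1 hu2 using key
  by_cases h : ∃ j, (p : ℤ_[p]) ∣ u j
  · obtain ⟨j, hj⟩ := h
    obtain ⟨d, hd1, hd2⟩ := hu2 j hj
    obtain ⟨e, he⟩ := hd
    have hap : ∀ y, (MulAut.conj d * t) y = d * t y * d⁻¹ := fun y => rfl
    have ht1 : Continuous (MulAut.conj d * t) :=
      (continuous_const.mul ht).mul continuous_const
    have hz1 : ∀ i, ∃ c' : Γ, (MulAut.conj d * t) (ι (zz g r i)) =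
        c' * ι (zz g r i) * c'⁻¹ := fun i =>
      ⟨d * c i, by rw [hap, hc i]; group⟩
    have hd1' : ∃ c' : Γ, (MulAut.conj d * t) (ι (dd g r)) = c' * ι (dd g r) * c'⁻¹ :=
      ⟨d * e, by rw [hap, he]; group⟩
    have h4 := main_fix hD hM ht1 hd2 hz1 hd1' hd1 hf x
    rw [hap, HZ_conj hf] at h4
    exact h4
  · exfalso
    have h5 := count hD hM ht htp c hc u (fun j hj => h ⟨j, hj⟩) hu1
    omega

end

end Pool.Agent.H371.PM
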