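import Pool.Agent.H371.PM.Defs

set_option autoImplicit false

namespace Pool.Agent.H371.PM

open Pool.Agent.H371.SE

section
variable {n : ℕ} {D : ℕ → Subgroup (FreeGroup (Fin n))}
  {Γ : Type} [Group Γ] [TopologicalSpace Γ] [IsTopologicalGroup Γ] [CompactSpace Γ] [T2Space Γ]
  {ι : FreeGroup (Fin n) →* Γ} {E : ℕ → Subgroup Γ}

/-- limits of conjugates are conjugates -/
theorem conj_limit (hM : Model D Γ ι E) (S : Finset (FreeGroup (Fin n))) (w : Γ)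
    (h : ∀ k, ∃ z ∈ S, ∃ c : FreeGroup (Fin n), (ι (c * z * c⁻¹))⁻¹ * w ∈ E k) :
    ∃ z ∈ S, ∃ c : Γ, w = c * ι z * c⁻¹ := by
  classical
  have h1 : ∃ z ∈ S, ∀ k, ∃ c : FreeGroup (Fin n), (ι (c * z * c⁻¹))⁻¹ * w ∈ E k := by
    by_contra hcon
    push Not at hcon
    choose! K hK using hcon
    obtain ⟨z, hz, c, hc⟩ := h (S.sup K)
    exact hK z hz c (hM.anti (Finset.le_sup hz) hc)
  obtain ⟨z, hz, hz'⟩ := h1
  refine ⟨z, hz, ?_⟩
  let C : ℕ → Set Γ := fun k => {c : Γ | (c * ι z * c⁻¹)⁻¹ * w ∈ E k}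
  have hcl : ∀ k, IsClosed (C k) := by
    intro k
    have h2 : IsClosed (E k : Set Γ) := (E k).isClosed_of_isOpen (hM.isOpen k)
    have h3 : Continuous fun c : Γ => (c * ι z * c⁻¹)⁻¹ * w := by fun_prop
    exact h2.preimage h3
  have hne : ∀ k, (C k).Nonempty := by
    intro k
    obtain ⟨c, hc⟩ := hz' k
    refine ⟨ι c, ?_⟩
    rw [map_mul, map_mul, map_inv] at hc
    exact hc
  obtain ⟨c, hc⟩ := IsCompact.nonempty_iInter_of_sequence_nonempty_isCompact_isClosed C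
    (fun k c hc => hM.anti (Nat.le_succ k) hc) hne (hcl 0).isCompact hcl
  refine ⟨c, ?_⟩
  have h4 : (c * ι z * c⁻¹)⁻¹ * w = 1 := hM.sep _ fun k => Set.mem_iInter.1 hc k
  exact (inv_mul_eq_one.1 h4).symm

end

end Pool.Agent.H371.PM
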