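import Pool.Agent.H371.PM.Q7

set_option autoImplicit false

namespace Pool.Agent.H371.PM

open Pool.Agent.H371.SE Pool.Agent.H371.SB

namespace Q17x

/-- homomorphisms to the `p`-adic integers are determined by the generators -/
theorem coord_eq {p : ℕ} [Fact p.Prime] {n : ℕ} {Γ : Type} [Group Γ]
    (ι : FreeGroup (Fin n) →* Γ) {f : Γ → ℤ_[p]} (hf : AddOn ⊤ f) (i : Fin n)
    (hi : ∀ j, f (ι (FreeGroup.of j)) = (Pi.single i 1 : Fin n → ℤ_[p]) j)
    (x : FreeGroup (Fin n)) :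
    f (ι x) = ((Multiplicative.toAdd (M12x.ex n x) i : ℤ) : ℤ_[p]) := by
  have hadd : ∀ a b : Γ, f (a * b) = f a + f b := fun a b =>
    hf a (Subgroup.mem_top _) b (Subgroup.mem_top _)
  have hf1 : f 1 = 0 := by
    have h1 := hadd 1 1
    rw [mul_one] at h1
    exact left_eq_add.1 h1
  let F1 : FreeGroup (Fin n) →* Multiplicative ℤ_[p] :=
    { toFun := fun x => Multiplicative.ofAdd (f (ι x))
      map_one' := by
        rw [map_one, hf1]
        rfl
      map_mul' := by
        intro a b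
        rw [map_mul, hadd]
        rfl }
  let F2 : FreeGroup (Fin n) →* Multiplicative ℤ_[p] :=
    { toFun := fun x => Multiplicative.ofAdd
        ((Multiplicative.toAdd (M12x.ex n x) i : ℤ) : ℤ_[p])
      map_one' := by
        rw [map_one, toAdd_one, Pi.zero_apply, Int.cast_zero]
        rfl
      map_mul' := by
        intro a b
        rw [map_mul, toAdd_mul, Pi.add_apply, Int.cast_add]
        rfl }
  have h : F1 = F2 := by
    apply FreeGroup.ext_hom
    intro j
    change Multiplicative.ofAdd (f (ι (FreeGroup.of j))) = Multiplicative.ofAdd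
      ((Multiplicative.toAdd (M12x.ex n (FreeGroup.of j)) i : ℤ) : ℤ_[p])
    rw [hi j, M12x.ex, FreeGroup.lift_apply_of, toAdd_ofAdd]
    rcases eq_or_ne i j with e | e
    · subst e
      rw [Pi.single_eq_same, Pi.single_eq_same, Int.cast_one]
    · rw [Pi.single_eq_of_ne e.symm, Pi.single_eq_of_ne e, Int.cast_zero]
  exact congrArg Multiplicative.toAdd (DFunLike.congr_fun h x)

end Q17x

open M10x

/-- limits of automorphisms of the free group whose `p`-th power is close to the identity and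
which are not congruent to the identity modulo `p ^ 2` on the abelianization -/
theorem exists_limit {p : ℕ} [Fact p.Prime] {n : ℕ} {D : ℕ → Subgroup (FreeGroup (Fin n))}
    (hD : Chain p n D) (P : MulAut (FreeGroup (Fin n)) → Prop)
    (h : ∀ k, ∃ h : MulAut (FreeGroup (Fin n)), P h ∧ (∀ x, (h ^ p) x * x⁻¹ ∈ D k) ∧
      ¬ TrivAb (p ^ 2) h) :
    ∃ (Γ : Type) (_ : Group Γ) (_ : TopologicalSpace Γ) (_ : IsTopologicalGroup Γ)
      (_ : CompactSpace Γ) (_ : T2Space Γ) (ι : FreeGroup (Fin n) →* Γ) (E : ℕ → Subgroup Γ)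
      (t : MulAut Γ), Model D Γ ι E ∧ Continuous t ∧ t ^ p = 1 ∧
      (∀ k, ∃ h : MulAut (FreeGroup (Fin n)), P h ∧ ∀ x, (ι (h x))⁻¹ * t (ι x) ∈ E k) ∧
      ∃ f : Γ → ℤ_[p], HZ p ⊤ f ∧ ∃ x, f (t x) ≠ f x := by
  choose h hP h2 hT using h
  obtain ⟨φ, hφ, hh⟩ := Chain.konig hD h
  obtain ⟨Γ, _, _, _, _, _, ι, E, hM⟩ := exists_model D hD.anti hD.normal hD.fin
  obtain ⟨t, ht, hg⟩ := Model.exists_aut hD hM (fun k => h (φ k)) hh
  have hιp : ∀ x, (t ^ p) (ι x) = ι x := by
    intro x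
    have h4 : (ι x)⁻¹ * (t ^ p) (ι x) = 1 := by
      refine hM.sep _ fun k => ?_
      have h5 := pow_approx hD hM ht hg k p x
      have h6 : (h (φ k) ^ p) x * x⁻¹ ∈ D k := hD.anti (hφ k) (h2 (φ k) x)
      have h7 := (hM.mem_iff k _).2 (flip_mem (hD.normal k) h6)
      rw [map_mul, map_inv] at h7
      have h8 := (E k).mul_mem ((E k).inv_mem h7) h5
      have h9 : ((ι ((h (φ k) ^ p) x))⁻¹ * ι x)⁻¹ * ((ι ((h (φ k) ^ p) x))⁻¹ * (t ^ p) (ι x)) =
          (ι x)⁻¹ * (t ^ p) (ι x) := by group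
      rwa [h9] at h8
    rw [inv_mul_eq_one] at h4
    exact h4.symm
  have htp : t ^ p = 1 := by
    ext y
    rw [MulAut.one_apply]
    have h4 : y⁻¹ * (t ^ p) y = 1 := by
      refine hM.sep _ fun k => ?_
      obtain ⟨f, hf⟩ := hM.dense k y
      have h5 := pow_mem hD hM ht hg k p hf
      rw [map_mul, map_inv, hιp] at h5
      have h6 := (E k).mul_mem hf ((E k).inv_mem h5)
      have h7 : y⁻¹ * ι f * (((t ^ p) y)⁻¹ * ι f)⁻¹ = y⁻¹ * (t ^ p) y := by group
      rwa [h7] at h6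
    rw [inv_mul_eq_one] at h4
    exact h4.symm
  refine ⟨Γ, inferInstance, inferInstance, inferInstance, inferInstance, inferInstance, ι, E, t,
    hM, ht, htp, fun k => ⟨h (φ k), hP (φ k), hg k⟩, ?_⟩
  by_contra hcon
  have hcon' : ∀ f : Γ → ℤ_[p], HZ p ⊤ f → ∀ x, f (t x) = f x := by
    intro f hf x
    by_contra hne
    exact hcon ⟨f, hf, x, hne⟩
  choose e he hev using fun i : Fin n => exists_coord hD hM (Pi.single i 1 : Fin n → ℤ_[p])
  choose W hW hdiv using fun i => (he i).2 2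
  choose K hK using fun i => hM.basis (W i) (hW i) (W i).one_mem
  apply hT (φ (Finset.univ.sup K))
  apply M12x.trivAb_fin
  intro x i
  have h4 : (ι (h (φ (Finset.univ.sup K)) x))⁻¹ * t (ι x) ∈ W i :=
    hK i (hM.anti (Finset.le_sup (Finset.mem_univ i)) (hg (Finset.univ.sup K) x))
  have h5 := hdiv i (ι (h (φ (Finset.univ.sup K)) x)) (Subgroup.mem_top _) _
    (Subgroup.mem_top _) h4
  rw [mul_inv_cancel_left, hcon' (e i) (he i), Q17x.coord_eq ι (he i).1 i (hev i),
    Q17x.coord_eq ι (he i).1 i (hev i), ← Int.cast_sub, PadicInt.pow_p_dvd_int_iff] at h5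
  rw [Nat.cast_pow, ← dvd_neg, neg_sub]
  exact h5

end Pool.Agent.H371.PM
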