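import Pool.Agent.H371.PM.Q14
import Pool.Agent.H371.PM.Q15b
import Pool.Agent.H371.PM.Q16
import Pool.Agent.H371.PM.Q17

set_option autoImplicit false

namespace Pool.Agent.H371.PM

open Pool.Agent.H371.SE Pool.Agent.H371.SB

namespace Q18x

theorem neg_form {p : ℕ} {n : ℕ} {D : ℕ → Subgroup (FreeGroup (Fin n))}
    {Q : MulAut (FreeGroup (Fin n)) → Prop}
    (hcon : ¬ ∃ k, ∀ h : MulAut (FreeGroup (Fin n)), Q h →
      (∀ x, (h ^ p) x * x⁻¹ ∈ D k) → TrivAb (p ^ 2) h) (k : ℕ) :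
    ∃ h : MulAut (FreeGroup (Fin n)), Q h ∧ (∀ x, (h ^ p) x * x⁻¹ ∈ D k) ∧
      ¬ TrivAb (p ^ 2) h := by
  by_contra hk
  apply hcon
  refine ⟨k, fun h h1 h2 => ?_⟩
  by_contra h3
  exact hk ⟨h, h1, h2, h3⟩

theorem conj_one {n : ℕ} {D : ℕ → Subgroup (FreeGroup (Fin n))}
    {Γ : Type} [Group Γ] [TopologicalSpace Γ] [IsTopologicalGroup Γ] [CompactSpace Γ] [T2Space Γ]
    {ι : FreeGroup (Fin n) →* Γ} {E : ℕ → Subgroup Γ} (hM : Model D Γ ι E) {t : MulAut Γ}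
    (z : FreeGroup (Fin n))
    (hz : ∀ k, ∃ h : MulAut (FreeGroup (Fin n)), IsConj z (h z) ∧
      ∀ x, (ι (h x))⁻¹ * t (ι x) ∈ E k) :
    ∃ c : Γ, t (ι z) = c * ι z * c⁻¹ := by
  obtain ⟨z', hz', c, hc⟩ := conj_limit hM {z} (t (ι z)) (by
    intro k
    obtain ⟨h, h1, h2⟩ := hz k
    obtain ⟨c, hc⟩ := isConj_iff.1 h1
    refine ⟨z, Finset.mem_singleton_self z, c, ?_⟩
    rw [hc]
    exact h2 z)
  rw [Finset.mem_singleton] at hz'
  rw [hz'] at hc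
  exact ⟨c, hc⟩

end Q18x

section
variable {p : ℕ} [Fact p.Prime] {g r : ℕ} {D : ℕ → Subgroup (FreeGroup (Fin (2 * g + r)))}

theorem level_pure (hD : Chain p (2 * g + r) D) (hr : 2 * g < r * (p - 1)) :
    ∃ k, ∀ h : MulAut (FreeGroup (Fin (2 * g + r))),
      ((∀ j, IsConj (zz g r j) (h (zz g r j))) ∧ IsConj (dd g r) (h (dd g r))) →
      (∀ x, (h ^ p) x * x⁻¹ ∈ D k) → TrivAb (p ^ 2) h := by
  by_contra hcon
  obtain ⟨Γ, i1, i2, i3, i4, i5, ι, E, t, hM, ht, htp, hlim, f, hf, x, hx⟩ :=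
    exists_limit hD (fun h => (∀ j, IsConj (zz g r j) (h (zz g r j))) ∧
      IsConj (dd g r) (h (dd g r))) (Q18x.neg_form hcon)
  refine hx (main_pure hD hM hr ht htp (fun j => ?_) ?_ hf x)
  · apply Q18x.conj_one hM
    intro k
    obtain ⟨h, h1, h2⟩ := hlim k
    exact ⟨h, h1.1 j, h2⟩
  · apply Q18x.conj_one hM
    intro k
    obtain ⟨h, h1, h2⟩ := hlim k
    exact ⟨h, h1.2, h2⟩

theorem level_bdry (hD : Chain p (2 * g + r) D) :
    ∃ k, ∀ h : MulAut (FreeGroup (Fin (2 * g + r))),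
      ((∀ j, ∃ j', IsConj (zz g r j') (h (zz g r j))) ∧ h (dd g r) = dd g r) →
      (∀ x, (h ^ p) x * x⁻¹ ∈ D k) → TrivAb (p ^ 2) h := by
  by_contra hcon
  obtain ⟨Γ, i1, i2, i3, i4, i5, ι, E, t, hM, ht, htp, hlim, f, hf, x, hx⟩ :=
    exists_limit hD (fun h => (∀ j, ∃ j', IsConj (zz g r j') (h (zz g r j))) ∧
      h (dd g r) = dd g r) (Q18x.neg_form hcon)
  refine hx (main_bdry hD hM ht htp (fun j => ?_) ?_ hf x)
  · classical
    obtain ⟨z, hz, c, hc⟩ := conj_limit hM (Finset.univ.image (zz g r)) (t (ι (zz g r j))) (by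
      intro k
      obtain ⟨h, ⟨h1, -⟩, h2⟩ := hlim k
      obtain ⟨j', hj'⟩ := h1 j
      obtain ⟨c, hc⟩ := isConj_iff.1 hj'
      refine ⟨zz g r j', Finset.mem_image_of_mem _ (Finset.mem_univ j'), c, ?_⟩
      rw [hc]
      exact h2 _)
    obtain ⟨j', -, hj'⟩ := Finset.mem_image.1 hz
    rw [← hj'] at hc
    exact ⟨j', c, hc⟩
  · have h1 : (ι (dd g r))⁻¹ * t (ι (dd g r)) = 1 := by
      apply hM.sep
      intro k
      obtain ⟨h, ⟨-, h1⟩, h2⟩ := hlim k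
      have h3 := h2 (dd g r)
      rw [h1] at h3
      exact h3
    exact (inv_mul_eq_one.1 h1).symm

end

end Pool.Agent.H371.PM
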