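import Pool.Agent.H371.PM.Defs

set_option autoImplicit false

namespace Pool.Agent.H371.PM

open Pool.Agent.H371.SE

namespace Q20x

/-- factors `1` outside the image of an increasing map can be omitted -/
theorem prod_mono {M : Type*} [Monoid M] : ∀ (r c : ℕ) (f : Fin r → M) (e : Fin c → Fin r),
    StrictMono e → (∀ j, j ∉ Set.range e → f j = 1) →
    (List.ofFn f).prod = (List.ofFn (fun k => f (e k))).prod := by
  intro r
  induction r with
  | zero =>
    intro c f e _ _
    cases c with
    | zero => simp
    | succ c => exact (e 0).elim0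
  | succ r ih =>
    intro c f e he hf
    by_cases h0 : (0 : Fin (r + 1)) ∈ Set.range e
    · obtain ⟨k0, hk0⟩ := h0
      cases c with
      | zero => exact k0.elim0
      | succ c =>
        have he0 : e 0 = 0 := by
          have h1 : e 0 ≤ e k0 := he.monotone (Fin.zero_le k0)
          rw [hk0] at h1
          exact le_antisymm h1 (Fin.zero_le _)
        have hne : ∀ k : Fin c, e k.succ ≠ 0 := by
          intro k h
          have h1 : e 0 < e k.succ := he (Fin.succ_pos k)
          rw [h, he0] at h1
          exact lt_irrefl _ h1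
        have h2 := ih c (fun j => f j.succ) (fun k => (e k.succ).pred (hne k)) (by
          intro a b hab
          rw [Fin.pred_lt_pred_iff]
          exact he (Fin.succ_lt_succ_iff.2 hab)) (by
          intro j hj
          apply hf
          rintro ⟨k, hk⟩
          rcases Fin.eq_zero_or_eq_succ k with h | ⟨k', h⟩
          · subst h
            rw [he0] at hk
            exact Fin.succ_ne_zero j hk.symm
          · subst h
            apply hj
            refine ⟨k', ?_⟩
            apply Fin.succ_injective
            simp only [Fin.succ_pred]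
            exact hk)
        rw [List.ofFn_succ, List.ofFn_succ, List.prod_cons, List.prod_cons, h2, he0]
        simp only [Fin.succ_pred]
    · have hne : ∀ k : Fin c, e k ≠ 0 := fun k h => h0 ⟨k, h⟩
      have h2 := ih c (fun j => f j.succ) (fun k => (e k).pred (hne k)) (by
        intro a b hab
        rw [Fin.pred_lt_pred_iff]
        exact he hab) (by
        intro j hj
        apply hf
        rintro ⟨k, hk⟩
        apply hj
        refine ⟨k, ?_⟩
        apply Fin.succ_injective
        simp only [Fin.succ_pred]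
        exact hk)
      rw [List.ofFn_succ, List.prod_cons, h2, hf 0 h0, one_mul]
      simp only [Fin.succ_pred]

end Q20x

/-- kill all punctures outside the image of the increasing map `e` -/
theorem kill_mono (g r c : ℕ) (e : Fin c → Fin r) (he : StrictMono e) :
    ∃ (π : FreeGroup (Fin (2 * g + r)) →* FreeGroup (Fin (2 * g + c)))
      (s : FreeGroup (Fin (2 * g + c)) →* FreeGroup (Fin (2 * g + r))),
      (∀ y, π (s y) = y) ∧ (∀ j, j ∉ Set.range e → π (zz g r j) = 1) ∧
      (∀ k, π (zz g r (e k)) = zz g c k) ∧ π (dd g r) = dd g c ∧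
      Subgroup.closure (Set.range s ∪ {y | ∃ j, j ∉ Set.range e ∧ y = zz g r j}) = ⊤ := by
  classical
  obtain ⟨π, hπ⟩ : ∃ π : FreeGroup (Fin (2 * g + r)) →* FreeGroup (Fin (2 * g + c)),
      π = FreeGroup.lift (fun i => Fin.addCases (motive := fun _ => FreeGroup (Fin (2 * g + c)))
        (fun k : Fin (2 * g) => FreeGroup.of (Fin.castAdd c k))
        (fun j : Fin r => if h : ∃ k, e k = j then zz g c (Classical.choose h) else 1) i) := ⟨_, rfl⟩
  obtain ⟨s, hs⟩ : ∃ s : FreeGroup (Fin (2 * g + c)) →* FreeGroup (Fin (2 * g + r)),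
      s = FreeGroup.lift (fun i => Fin.addCases (motive := fun _ => FreeGroup (Fin (2 * g + r)))
        (fun k : Fin (2 * g) => FreeGroup.of (Fin.castAdd r k))
        (fun k : Fin c => zz g r (e k)) i) := ⟨_, rfl⟩
  have π1 : ∀ k : Fin (2 * g), π (FreeGroup.of (Fin.castAdd r k)) = FreeGroup.of (Fin.castAdd c k) := by
    intro k
    rw [hπ, FreeGroup.lift_apply_of, Fin.addCases_left]
  have π2 : ∀ j, j ∉ Set.range e → π (zz g r j) = 1 := by
    intro j hj
    have hj' : ¬ ∃ k, e k = j := hj
    unfold zz
    rw [hπ, FreeGroup.lift_apply_of, Fin.addCases_right, dif_neg hj']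
  have π3 : ∀ k, π (zz g r (e k)) = zz g c k := by
    intro k
    have hk : ∃ k', e k' = e k := ⟨k, rfl⟩
    have h1 : Classical.choose hk = k := he.injective (Classical.choose_spec hk)
    have h2 : π (zz g r (e k)) = zz g c (Classical.choose hk) := by
      rw [hπ, show zz g r (e k) = FreeGroup.of (Fin.natAdd (2 * g) (e k)) from rfl,
        FreeGroup.lift_apply_of, Fin.addCases_right, dif_pos hk]
    rw [h2, h1]
  have s1 : ∀ k : Fin (2 * g), s (FreeGroup.of (Fin.castAdd c k)) = FreeGroup.of (Fin.castAdd r k) := by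
    intro k
    rw [hs, FreeGroup.lift_apply_of, Fin.addCases_left]
  have s2 : ∀ k, s (zz g c k) = zz g r (e k) := by
    intro k
    rw [hs, show zz g c k = FreeGroup.of (Fin.natAdd (2 * g) k) from rfl,
      FreeGroup.lift_apply_of, Fin.addCases_right]
  refine ⟨π, s, ?_, π2, π3, ?_, ?_⟩
  · have h1 : π.comp s = MonoidHom.id _ := by
      apply FreeGroup.ext_hom
      intro i
      rw [MonoidHom.comp_apply, MonoidHom.id_apply]
      refine Fin.addCases (motive := fun i => π (s (FreeGroup.of i)) = FreeGroup.of i) ?_ ?_ i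
      · intro k
        rw [s1, π1]
      · intro k
        have h2 := s2 k
        have h3 := π3 k
        unfold zz at h2 h3
        rw [h2, h3]
    intro y
    have h2 := DFunLike.congr_fun h1 y
    exact h2
  · unfold dd
    rw [map_mul, map_list_prod, map_list_prod, List.map_ofFn, List.map_ofFn]
    congr 1
    · congr 2
      funext i
      have h1 := π1 ⟨2 * i, by omega⟩
      have h2 := π1 ⟨2 * i + 1, by omega⟩
      have e1 : (Fin.castAdd r ⟨2 * (i : ℕ), by omega⟩ : Fin (2 * g + r)) = ⟨2 * i, by omega⟩ := rfl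
      have e2 : (Fin.castAdd r ⟨2 * (i : ℕ) + 1, by omega⟩ : Fin (2 * g + r)) = ⟨2 * i + 1, by omega⟩ := rfl
      have e3 : (Fin.castAdd c ⟨2 * (i : ℕ), by omega⟩ : Fin (2 * g + c)) = ⟨2 * i, by omega⟩ := rfl
      have e4 : (Fin.castAdd c ⟨2 * (i : ℕ) + 1, by omega⟩ : Fin (2 * g + c)) = ⟨2 * i + 1, by omega⟩ := rfl
      rw [e1, e3] at h1
      rw [e2, e4] at h2
      simp only [Function.comp_apply, cmt, map_mul, map_inv, h1, h2]
    · rw [Q20x.prod_mono r c (⇑π ∘ zz g r) e he (fun j hj => π2 j hj)]
      congr 2
      funext k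
      exact π3 k
  · rw [eq_top_iff, ← FreeGroup.closure_range_of, Subgroup.closure_le]
    rintro _ ⟨i, rfl⟩
    refine Fin.addCases (motive := fun i => FreeGroup.of i ∈ (Subgroup.closure
      (Set.range s ∪ {y | ∃ j, j ∉ Set.range e ∧ y = zz g r j}) :
        Subgroup (FreeGroup (Fin (2 * g + r))))) ?_ ?_ i
    · intro k
      exact Subgroup.subset_closure (Or.inl ⟨_, s1 k⟩)
    · intro j
      by_cases hj : j ∈ Set.range e
      · obtain ⟨k, rfl⟩ := hj
        exact Subgroup.subset_closure (Or.inl ⟨_, s2 k⟩)
      · exact Subgroup.subset_closure (Or.inr ⟨j, hj, rfl⟩)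

end Pool.Agent.H371.PM
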