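import Pool.Agent.H371.PM.Q15b
import Pool.Agent.H371.PM.Q20

set_option autoImplicit false

namespace Pool.Agent.H371.PM

open Pool.Agent.H371.SE

/-- additive functions of the last peripheral element -/
theorem Q21x_dd {g r : ℕ} {M : Type} [AddCommGroup M] (F : FreeGroup (Fin (2 * g + r)) → M)
    (hF : ∀ x y, F (x * y) = F x + F y) : F (dd g r) = ∑ j, F (zz g r j) := by
  let Fh : FreeGroup (Fin (2 * g + r)) →* Multiplicative M :=
    MonoidHom.mk' (fun x => Multiplicative.ofAdd (F x)) fun x y => by rw [hF, ofAdd_add]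
  have h1 : Fh (dd g r) = ∏ j, Fh (zz g r j) := by
    unfold dd
    rw [map_mul, map_list_prod, map_list_prod, List.map_ofFn, List.map_ofFn, List.prod_ofFn,
      List.prod_ofFn]
    have h2 : ∏ i : Fin g, (Fh ∘ fun i : Fin g =>
        cmt (FreeGroup.of (⟨2 * i, by omega⟩ : Fin (2 * g + r)))
          (FreeGroup.of (⟨2 * i + 1, by omega⟩ : Fin (2 * g + r)))) i = 1 := by
      refine Finset.prod_eq_one fun i _ => ?_
      rw [Function.comp_apply, cmt, map_mul, map_mul, map_mul, map_inv, map_inv,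
        mul_right_comm (Fh _) (Fh _) (Fh _)⁻¹, mul_inv_cancel, one_mul, mul_inv_cancel]
    rw [h2, one_mul]
    rfl
  have h3 : ∀ s : Finset (Fin r), Multiplicative.toAdd (∏ j ∈ s, Fh (zz g r j)) =
      ∑ j ∈ s, F (zz g r j) := by
    classical
    intro s
    induction s using Finset.induction_on with
    | empty => rfl
    | insert a s ha ih =>
      rw [Finset.prod_insert ha, Finset.sum_insert ha, toAdd_mul, ih]
      rfl
  rw [← h3, ← h1]
  rfl

theorem Q21x_pow {G : Type} [Group G] (t : MulAut G) (k : ℕ) (x : G) :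
    (t ^ (k + 1)) x = t ((t ^ k) x) := by
  rw [pow_succ', MulAut.mul_apply]

section
variable {p : ℕ} [Fact p.Prime] {g r : ℕ} {D : ℕ → Subgroup (FreeGroup (Fin (2 * g + r)))}
  {Γ : Type} [Group Γ] [TopologicalSpace Γ] [IsTopologicalGroup Γ] [CompactSpace Γ] [T2Space Γ]
  {ι : FreeGroup (Fin (2 * g + r)) →* Γ} {E : ℕ → Subgroup Γ}

/-- automorphisms of order `p` preserving the conjugacy classes of the punctures in a large set
`A` and permuting the other ones are trivial on the abelianization -/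
theorem main_mixed (hD : Chain p (2 * g + r) D) (hM : Model D Γ ι E) (A : Finset (Fin r))
    (hr : 2 * g < A.card * (p - 1)) {t : MulAut Γ} (ht : Continuous t) (htp : t ^ p = 1)
    (hz : ∀ j, ∃ j', (j ∈ A → j' = j) ∧ ∃ c : Γ, t (ι (zz g r j)) = c * ι (zz g r j') * c⁻¹)
    (hd : ∃ c : Γ, t (ι (dd g r)) = c * ι (dd g r) * c⁻¹)
    {f : Γ → ℤ_[p]} (hf : HZ p ⊤ f) (x : Γ) : f (t x) = f x := by
  classical
  have hA : 0 < A.card := by
    by_contra h
    have h1 : A.card = 0 := by omega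
    rw [h1, zero_mul] at hr
    exact Nat.not_lt_zero _ hr
  set c : ℕ := A.card with hc
  set e : Fin c ↪o Fin r := A.orderEmbOfFin hc.symm with he
  have hrange : ∀ j, j ∈ Set.range e ↔ j ∈ A := by
    intro j
    rw [he, Finset.range_orderEmbOfFin]
    rfl
  have heA : ∀ k, e k ∈ A := fun k => (hrange _).1 ⟨k, rfl⟩
  obtain ⟨π, s, hs, hk1, hk2, hk3, hk4⟩ := kill_mono g r c e e.strictMono
  obtain ⟨D', hD'⟩ := exists_chain p (2 * g + c)
  obtain ⟨Γ', _, _, _, _, _, ι', E', hM'⟩ := exists_model D' hD'.anti hD'.normal hD'.fin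
  obtain ⟨q, hq, hqπ'⟩ := exists_ext hD hM hD' hM' (ι'.comp π)
  have hqπ : ∀ x, q (ι x) = ι' (π x) := hqπ'
  -- coordinates separate the punctures
  have hsepz : ∀ j j' (d : Γ), ι (zz g r j) = d * ι (zz g r j') * d⁻¹ → j = j' := by
    intro j j' d h
    by_contra hne
    obtain ⟨f0, hf0, hf1⟩ := exists_coord hD hM (Pi.single (Fin.natAdd (2 * g) j) 1)
    have h1 : f0 (ι (zz g r j)) = 1 := by
      rw [zz, hf1, Pi.single_eq_same]
    have h2 : f0 (ι (zz g r j')) = 0 := by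
      rw [zz, hf1, Pi.single_eq_of_ne]
      intro h3
      exact hne (Fin.natAdd_injective _ _ h3).symm
    rw [h, HZ_conj hf0, h2] at h1
    exact zero_ne_one h1
  have hAA : ∀ j j' (c₁ : Γ), j ∉ A → t (ι (zz g r j)) = c₁ * ι (zz g r j') * c₁⁻¹ → j' ∉ A := by
    intro j j' c₁ hj h1 hj'
    obtain ⟨j'', h2, c₂, h3⟩ := hz j'
    rw [h2 hj'] at h3
    have h4 : ι (zz g r j) = t.symm (c₁ * c₂⁻¹) * ι (zz g r j') * (t.symm (c₁ * c₂⁻¹))⁻¹ := by
      apply t.injective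
      have h5 : t (t.symm (c₁ * c₂⁻¹)) = c₁ * c₂⁻¹ := t.apply_symm_apply _
      rw [map_mul, map_mul, map_inv, h5, h1, h3]
      group
    exact hj (hsepz _ _ _ h4 ▸ hj')
  have hqt : ∀ j, j ∉ A → q (t (ι (zz g r j))) = 1 := by
    intro j hj
    obtain ⟨j', -, c₁, h1⟩ := hz j
    have h2 : j' ∉ A := hAA j j' c₁ hj h1
    rw [h1, map_mul, map_mul, map_inv, hqπ, hk1 j' (fun h => h2 ((hrange _).1 h)), map_one,
      mul_one, mul_inv_cancel]
  obtain ⟨t1, ht1, ht1p, ht1q⟩ := quot_aut hD hM hD' hM' ht htp hq π hqπ s hs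
    {y | ∃ j, j ∉ Set.range e ∧ y = zz g r j} hk4
    (by rintro y ⟨j, hj, rfl⟩; exact hk1 j hj)
    (by
      rintro y ⟨j, hj, rfl⟩
      exact hqt j (fun h => hj ((hrange _).2 h)))
  have hzq : ∀ k, ι' (zz g c k) = q (ι (zz g r (e k))) := by
    intro k
    rw [hqπ, hk2]
  have hdq : ι' (dd g c) = q (ι (dd g r)) := by
    rw [hqπ, hk3]
  obtain ⟨c₀, hc₀⟩ := hd
  -- invariance for the quotient
  have hinv : ∀ f1 : Γ' → ℤ_[p], HZ p ⊤ f1 → ∀ y, f1 (t1 y) = f1 y := by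
    intro f1 hf1 y
    refine main_pure hD' hM' hr ht1 ht1p (fun k => ?_) ⟨q c₀, ?_⟩ hf1 y
    · obtain ⟨j', h1, c₁, h2⟩ := hz (e k)
      rw [h1 (heA k)] at h2
      refine ⟨q c₁, ?_⟩
      rw [hzq, ht1q, h2, map_mul, map_mul, map_inv]
    · rw [hdq, ht1q, hc₀, map_mul, map_mul, map_inv]
  have hinvk : ∀ f1 : Γ' → ℤ_[p], HZ p ⊤ f1 → ∀ (k : ℕ) (y : Γ'), f1 ((t1 ^ k) y) = f1 y := by
    intro f1 hf1 k
    induction k with
    | zero => intro y; rfl
    | succ k ih =>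
      intro y
      rw [Q21x_pow, hinv f1 hf1, ih]
  have hqk : ∀ (k : ℕ) (x : Γ), q ((t ^ k) x) = (t1 ^ k) (q x) := by
    intro k
    induction k with
    | zero => intro x; rfl
    | succ k ih =>
      intro x
      rw [Q21x_pow, Q21x_pow, ← ht1q, ih]
  -- the coordinate functions
  have hcoord : ∀ {r' : ℕ} {D₁ : ℕ → Subgroup (FreeGroup (Fin (2 * g + r')))} {Γ₁ : Type}
      [Group Γ₁] [TopologicalSpace Γ₁] [IsTopologicalGroup Γ₁]
      {ι₁ : FreeGroup (Fin (2 * g + r')) →* Γ₁} {E₁ : ℕ → Subgroup Γ₁}, Chain p (2 * g + r') D₁ →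
      Model D₁ Γ₁ ι₁ E₁ → ∀ j : Fin r', ∃ f0 : Γ₁ → ℤ_[p], HZ p ⊤ f0 ∧ f0 (ι₁ (dd g r')) = 1 := by
    intro r' D₁ Γ₁ _ _ _ ι₁ E₁ hD₁ hM₁ j
    obtain ⟨f0, hf0, hf1⟩ := exists_coord hD₁ hM₁ (Pi.single (Fin.natAdd (2 * g) j) 1)
    refine ⟨f0, hf0, ?_⟩
    have h1 := Q21x_dd (fun x => f0 (ι₁ x)) fun x y => by
      rw [map_mul]
      exact hf0.1 _ (Subgroup.mem_top _) _ (Subgroup.mem_top _)
    rw [h1, Finset.sum_eq_single j]
    · rw [zz, hf1, Pi.single_eq_same]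
    · intro j' _ hne
      rw [zz, hf1, Pi.single_eq_of_ne]
      intro h3
      exact hne (Fin.natAdd_injective _ _ h3)
    · intro h
      exact absurd (Finset.mem_univ j) h
  obtain ⟨χ, hχ, hχ1⟩ := hcoord hD hM (e ⟨0, hA⟩)
  obtain ⟨f1, hf1, hf11⟩ := hcoord hD' hM' ⟨0, hA⟩
  obtain ⟨h1, h2⟩ := HZ_mod hχ
  obtain ⟨u, hu1, hu2⟩ := exists_unit (Model.good hD hM) ht htp hc₀ h1 h2 (by
    rw [hχ1, map_one]
    exact one_ne_zero)
  have hpu : (p : ℤ_[p]) ∣ u := by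
    have h3 := hu1 (fun x => f1 (q x)) (HZ_comp hf1 hq)
    rw [← hdq, hf11, mul_one] at h3
    rw [← h3]
    refine ⟨f1 (q c₀⁻¹), ?_⟩
    have h4 : ∀ i ∈ Finset.range p, f1 (q ((t ^ i) c₀⁻¹)) = f1 (q c₀⁻¹) := by
      intro i _
      rw [hqk, hinvk f1 hf1]
    rw [Finset.sum_congr rfl h4, Finset.sum_const, Finset.card_range, nsmul_eq_mul]
  obtain ⟨d, hd1, hd2⟩ := hu2 hpu
  have happ : ∀ y, (MulAut.conj d * t) y = d * t y * d⁻¹ := by
    intro y
    rw [MulAut.mul_apply, MulAut.conj_apply]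
  have h5 := main_bdry hD hM (t := MulAut.conj d * t)
    (by
      have h6 : Continuous fun y => d * t y * d⁻¹ := by fun_prop
      refine h6.congr fun y => (happ y).symm) hd2
    (by
      intro j
      obtain ⟨j', -, c₁, h6⟩ := hz j
      refine ⟨j', d * c₁, ?_⟩
      rw [happ, h6]
      group) hd1 hf x
  rw [happ, HZ_conj hf] at h5
  exact h5

end

end Pool.Agent.H371.PM
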