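import Pool.Agent.H371.PM.Q16
import Pool.Agent.H371.PM.Q17
import Pool.Agent.H371.PM.Q21

set_option autoImplicit false

namespace Pool.Agent.H371.PM

open Pool.Agent.H371.SE Pool.Agent.H371.SB

section
variable {p : ℕ} [Fact p.Prime] {g r : ℕ} {D : ℕ → Subgroup (FreeGroup (Fin (2 * g + r)))}

theorem level_mixed (hD : Chain p (2 * g + r) D) (A : Finset (Fin r))
    (hr : 2 * g < A.card * (p - 1)) :
    ∃ k, ∀ h : MulAut (FreeGroup (Fin (2 * g + r))),
      ((∀ j, ∃ j', (j ∈ A → j' = j) ∧ IsConj (zz g r j') (h (zz g r j))) ∧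
        IsConj (dd g r) (h (dd g r))) →
      (∀ x, (h ^ p) x * x⁻¹ ∈ D k) → TrivAb (p ^ 2) h := by
  classical
  by_contra hcon
  have hcon' : ∀ k, ∃ h : MulAut (FreeGroup (Fin (2 * g + r))),
      ((∀ j, ∃ j', (j ∈ A → j' = j) ∧ IsConj (zz g r j') (h (zz g r j))) ∧
        IsConj (dd g r) (h (dd g r))) ∧ (∀ x, (h ^ p) x * x⁻¹ ∈ D k) ∧ ¬ TrivAb (p ^ 2) h := by
    intro k
    by_contra hk
    refine hcon ⟨k, fun h h1 h2 => ?_⟩
    by_contra h3
    exact hk ⟨h, h1, h2, h3⟩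
  obtain ⟨Γ, i1, i2, i3, i4, i5, ι, E, t, hM, ht, htp, hlim, f, hf, x, hx⟩ :=
    exists_limit hD (fun h => (∀ j, ∃ j', (j ∈ A → j' = j) ∧
      IsConj (zz g r j') (h (zz g r j))) ∧ IsConj (dd g r) (h (dd g r))) hcon'
  refine hx (main_mixed hD hM A hr ht htp (fun j => ?_) ?_ hf x)
  · by_cases hj : j ∈ A
    · obtain ⟨z, hz, c, hc⟩ := conj_limit hM {zz g r j} (t (ι (zz g r j))) fun k => by
        obtain ⟨h, ⟨hP, _⟩, hh⟩ := hlim k
        obtain ⟨j', hj', hconj⟩ := hP j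
        rw [hj' hj] at hconj
        obtain ⟨c, hc⟩ := isConj_iff.1 hconj
        refine ⟨zz g r j, Finset.mem_singleton_self _, c, ?_⟩
        rw [hc]
        exact hh (zz g r j)
      rw [Finset.mem_singleton] at hz
      rw [hz] at hc
      exact ⟨j, fun _ => rfl, c, hc⟩
    · obtain ⟨z, hz, c, hc⟩ := conj_limit hM (Finset.univ.image (zz g r)) (t (ι (zz g r j)))
        fun k => by
          obtain ⟨h, ⟨hP, _⟩, hh⟩ := hlim k
          obtain ⟨j', hj', hconj⟩ := hP j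
          obtain ⟨c, hc⟩ := isConj_iff.1 hconj
          refine ⟨zz g r j', Finset.mem_image_of_mem _ (Finset.mem_univ _), c, ?_⟩
          rw [hc]
          exact hh (zz g r j)
      obtain ⟨j', _, hj'⟩ := Finset.mem_image.1 hz
      rw [← hj'] at hc
      exact ⟨j', fun h => absurd h hj, c, hc⟩
  · obtain ⟨z, hz, c, hc⟩ := conj_limit hM {dd g r} (t (ι (dd g r))) fun k => by
      obtain ⟨h, ⟨_, hP⟩, hh⟩ := hlim k
      obtain ⟨c, hc⟩ := isConj_iff.1 hP
      refine ⟨dd g r, Finset.mem_singleton_self _, c, ?_⟩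
      rw [hc]
      exact hh (dd g r)
    rw [Finset.mem_singleton] at hz
    rw [hz] at hc
    exact ⟨c, hc⟩

end

end Pool.Agent.H371.PM
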