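import Pool.Agent.H371.PM.Q1

set_option autoImplicit false

namespace Pool.Agent.H371.PM

open Pool.Agent.H371.SE

namespace Q2x

section
variable {Q : Type} [Group Q]

/-- `x = γ^i z^j` -/
def R (c s x : Q) (i : ℤ) : Prop := ∃ j : ℤ, x = c ^ i * s ^ j

theorem R_mul {c s : Q} (h : c * s = s * c) {x y : Q} {i j : ℤ} (hx : R c s x i) (hy : R c s y j) :
    R c s (x * y) (i + j) := by
  obtain ⟨a, rfl⟩ := hx
  obtain ⟨b, rfl⟩ := hy
  refine ⟨a + b, ?_⟩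
  have hc : Commute c s := h
  have h1 : s ^ a * c ^ j = c ^ j * s ^ a := (hc.zpow_zpow j a).symm.eq
  rw [zpow_add, zpow_add]
  calc c ^ i * s ^ a * (c ^ j * s ^ b) = c ^ i * (s ^ a * c ^ j) * s ^ b := by group
    _ = c ^ i * c ^ j * (s ^ a * s ^ b) := by rw [h1]; group

theorem R_inv {c s : Q} (h : c * s = s * c) {x : Q} {i : ℤ} (hx : R c s x i) :
    R c s x⁻¹ (-i) := by
  obtain ⟨a, rfl⟩ := hx
  refine ⟨-a, ?_⟩
  have hc : Commute c s := h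
  have h1 : s ^ (-a) * c ^ (-i) = c ^ (-i) * s ^ (-a) := (hc.zpow_zpow (-i) (-a)).symm.eq
  rw [mul_inv_rev, ← zpow_neg, ← zpow_neg, h1]

theorem R_uniq {p : ℕ} (hp : p.Prime) {c s : Q} (h : c * s = s * c) {k : ℕ} (hk : c ^ (p ^ k) = 1)
    (hn : ∀ j : ℤ, c ≠ s ^ j) {x : Q} {i j : ℤ} (hx : R c s x i) (hy : R c s x j) :
    (p : ℤ) ∣ i - j := by
  by_contra hdiv
  have hc : Commute c s := h
  have h1 := R_mul h hx (R_inv h hy)
  rw [mul_inv_cancel, ← sub_eq_add_neg] at h1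
  obtain ⟨a, ha⟩ := h1
  have hcop : IsCoprime (i - j) ((p : ℤ) ^ k) := by
    apply IsCoprime.pow_right
    rw [isCoprime_comm]
    exact (Nat.prime_iff_prime_int.1 hp).coprime_iff_not_dvd.2 hdiv
  obtain ⟨u, v, huv⟩ := hcop
  have h2 : c ^ (i - j) = s ^ (-a) := by
    rw [zpow_neg, eq_inv_iff_mul_eq_one, ← ha]
  have h3 : c ^ ((p : ℤ) ^ k) = 1 := by
    have : c ^ (((p ^ k : ℕ)) : ℤ) = 1 := by rw [zpow_natCast, hk]
    simpa using this
  apply hn (-a * u)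
  calc c = c ^ (1 : ℤ) := (zpow_one c).symm
    _ = c ^ ((i - j) * u + (p : ℤ) ^ k * v) := by rw [← huv]; ring_nf
    _ = s ^ (-a * u) := by
      rw [zpow_add, zpow_mul, zpow_mul, h2, h3, one_zpow, mul_one, ← zpow_mul]

end

end Q2x

section
variable {p : ℕ} [Fact p.Prime] {Γ : Type} [Group Γ] [TopologicalSpace Γ] [IsTopologicalGroup Γ]
  [CompactSpace Γ] [T2Space Γ]

/-- centralizers of elements which are not `p`-th powers modulo commutators -/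
theorem mem_closure_of_comm (hG : Good p Γ) {z γ : Γ} (h : γ * z = z * γ) {χ : Γ → ZMod p}
    (h1 : AddOn ⊤ χ) (h2 : LC ⊤ χ) (h3 : χ z ≠ 0) :
    γ ∈ closure (Subgroup.zpowers z : Set Γ) := by
  classical
  by_contra hγ
  have hp : p.Prime := Fact.out
  obtain ⟨W, hWn, hWo, hWS⟩ := hG.basis ((fun w => γ * w) ⁻¹' (closure (Subgroup.zpowers z : Set Γ))ᶜ)
    ((isClosed_closure.isOpen_compl).preimage (continuous_const_mul γ)) (by simpa using hγ)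
  have hnot : ∀ w ∈ W, γ * w ∉ Subgroup.zpowers z := by
    intro w hw hmem
    exact hWS hw (subset_closure hmem)
  obtain ⟨k, hk⟩ := pow_mem hG hWn hWo γ
  obtain ⟨π, hπ⟩ : ∃ π : Γ →* Γ ⧸ W, π = QuotientGroup.mk' W := ⟨_, rfl⟩
  have hπW : ∀ x, π x = 1 ↔ x ∈ W := by
    intro x
    rw [hπ, QuotientGroup.mk'_apply, QuotientGroup.eq_one_iff]
  have hcomm : π γ * π z = π z * π γ := by rw [← map_mul, h, map_mul]
  have hkπ : (π γ) ^ (p ^ k) = 1 := by rw [← map_pow, hπW]; exact hk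
  have hnπ : ∀ j : ℤ, π γ ≠ (π z) ^ j := by
    intro j hj
    have h4 : π (γ⁻¹ * z ^ j) = 1 := by
      rw [map_mul, map_inv, map_zpow, ← hj, inv_mul_cancel]
    rw [hπW] at h4
    apply hnot _ h4
    rw [mul_inv_cancel_left]
    exact Subgroup.zpow_mem_zpowers z j
  let U : Subgroup Γ :=
    { carrier := {x | ∃ i : ℤ, Q2x.R (π γ) (π z) (π x) i}
      mul_mem' := by
        rintro x y ⟨i, hi⟩ ⟨j, hj⟩
        exact ⟨i + j, by rw [map_mul]; exact Q2x.R_mul hcomm hi hj⟩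
      one_mem' := ⟨0, 0, by simp⟩
      inv_mem' := by
        rintro x ⟨i, hi⟩
        exact ⟨-i, by rw [map_inv]; exact Q2x.R_inv hcomm hi⟩ }
  have hUmem : ∀ x, x ∈ U ↔ ∃ i : ℤ, Q2x.R (π γ) (π z) (π x) i := fun x => Iff.rfl
  have hWU : W ≤ U := by
    intro w hw
    exact ⟨0, 0, by rw [(hπW w).2 hw]; simp⟩
  have hUo : IsOpen (U : Set Γ) := Subgroup.isOpen_mono hWU hWo
  let ψ : Γ → ZMod p := fun x =>
    if hx : ∃ i : ℤ, Q2x.R (π γ) (π z) (π x) i then ((hx.choose : ℤ) : ZMod p) else 0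
  have hψ : ∀ x i, Q2x.R (π γ) (π z) (π x) i → ψ x = ((i : ℤ) : ZMod p) := by
    intro x i hi
    have hx : ∃ i : ℤ, Q2x.R (π γ) (π z) (π x) i := ⟨i, hi⟩
    have e : ψ x = ((hx.choose : ℤ) : ZMod p) := dif_pos hx
    rw [e, ← sub_eq_zero, ← Int.cast_sub, ZMod.intCast_zmod_eq_zero_iff_dvd]
    exact Q2x.R_uniq hp hcomm hkπ hnπ hx.choose_spec hi
  have hψW : ∀ x, ∀ w ∈ W, ψ (x * w) = ψ x := by
    intro x w hw
    have e : π (x * w) = π x := by rw [map_mul, (hπW w).2 hw, mul_one]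
    simp only [ψ, e]
  have hψadd : ∀ x ∈ U, ∀ y ∈ U, ψ (x * y) = ψ x + ψ y := by
    rintro x ⟨i, hi⟩ y ⟨j, hj⟩
    rw [hψ x i hi, hψ y j hj, hψ (x * y) (i + j) (by rw [map_mul]; exact Q2x.R_mul hcomm hi hj)]
    push_cast
    rfl
  have hzR : Q2x.R (π γ) (π z) (π z) 0 := ⟨1, by simp⟩
  have hγR : Q2x.R (π γ) (π z) (π γ) 1 := ⟨0, by simp⟩
  have hψz : ψ z = 0 := by rw [hψ z 0 hzR]; simp
  have hψγ : ψ γ = 1 := by rw [hψ γ 1 hγR]; simp
  have hzU : z ∈ U := ⟨0, hzR⟩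
  have hγU : γ ∈ U := ⟨1, hγR⟩
  obtain ⟨W', hW'o, hW'⟩ := h2
  obtain ⟨g, _, hg⟩ := hG.cd U hUo (fun x y => χ x * ψ y) (by
    intro x hx y hy w hw
    rw [h1 x trivial y trivial, hψadd y hy w hw]
    ring) ⟨W ⊓ W', by
      rw [Subgroup.coe_inf]
      exact hWo.inter hW'o, by
    intro x _ y _ w _ w' _ hw hw'
    rw [hW' x trivial w trivial hw.2, hψW y w' hw'.1]⟩
  have e1 := hg γ hγU z hzU
  have e2 := hg z hzU γ hγU
  rw [h, e2, hψz, hψγ] at e1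
  apply h3
  linear_combination e1

end

end Pool.Agent.H371.PM
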