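import Pool.Agent.H371.PM.Q1

set_option autoImplicit false
set_option linter.unusedSectionVars false

namespace Pool.Agent.H371.PM

open Pool.Agent.H371.SE

namespace Q3x

open Filter Topology

section
variable {p : ℕ} [Fact p.Prime] {Γ : Type} [Group Γ] [TopologicalSpace Γ] [IsTopologicalGroup Γ]
  [CompactSpace Γ] [T2Space Γ]

/-- the graph of the integer powers -/
def gr (p : ℕ) [Fact p.Prime] (z : Γ) : Set (ℤ_[p] × Γ) :=
  Set.range fun m : ℤ => ((m : ℤ_[p]), z ^ m)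

theorem exists_gr (z : Γ) (a : ℤ_[p]) : ∃ γ, (a, γ) ∈ closure (gr p z) := by
  have h1 : IsClosed (Prod.fst '' closure (gr p z)) :=
    isClosedMap_fst_of_compactSpace _ isClosed_closure
  have h2 : Set.range (Int.cast : ℤ → ℤ_[p]) ⊆ Prod.fst '' closure (gr p z) := by
    rintro _ ⟨m, rfl⟩
    exact ⟨((m : ℤ_[p]), z ^ m), subset_closure ⟨m, rfl⟩, rfl⟩
  have h3 : a ∈ Prod.fst '' closure (gr p z) := by
    have h4 : a ∈ closure (Set.range (Int.cast : ℤ → ℤ_[p])) := PadicInt.denseRange_intCast a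
    exact (closure_minimal h2 h1) h4
  obtain ⟨⟨b, γ⟩, h5, h6⟩ := h3
  have h6' : b = a := h6
  subst h6'
  exact ⟨γ, h5⟩

theorem near (z : Γ) {a : ℤ_[p]} {γ : Γ} (h : (a, γ) ∈ closure (gr p z)) (k : ℕ) {W : Subgroup Γ}
    (hW : IsOpen (W : Set Γ)) : ∃ m : ℤ, ‖(m : ℤ_[p]) - a‖ ≤ (p : ℝ) ^ (-(k : ℤ)) ∧ γ⁻¹ * z ^ m ∈ W := by
  have hp : 0 < (p : ℝ) ^ (-(k : ℤ)) := by
    have : 0 < (p : ℝ) := by exact_mod_cast (Fact.out : p.Prime).pos
    positivity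
  have h1 : Metric.ball a ((p : ℝ) ^ (-(k : ℤ))) ×ˢ {γ' : Γ | γ⁻¹ * γ' ∈ W} ∈ 𝓝 (a, γ) := by
    refine prod_mem_nhds (Metric.ball_mem_nhds a hp) ?_
    have h2 : IsOpen {γ' : Γ | γ⁻¹ * γ' ∈ W} := hW.preimage (continuous_const_mul γ⁻¹)
    apply h2.mem_nhds
    show γ⁻¹ * γ ∈ W
    rw [inv_mul_cancel]
    exact W.one_mem
  obtain ⟨⟨b, δ⟩, ⟨h3, h4⟩, m, hm⟩ := mem_closure_iff_nhds.1 h _ h1
  have hb : (m : ℤ_[p]) = b := congrArg Prod.fst hm
  have hd : z ^ m = δ := congrArg Prod.snd hm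
  refine ⟨m, ?_, ?_⟩
  · rw [hb]
    have h5 : dist b a < (p : ℝ) ^ (-(k : ℤ)) := h3
    rw [dist_eq_norm] at h5
    exact h5.le
  · rw [hd]
    exact h4

theorem unique_gr (hG : Good p Γ) (z : Γ) {a : ℤ_[p]} {γ γ' : Γ} (h : (a, γ) ∈ closure (gr p z))
    (h' : (a, γ') ∈ closure (gr p z)) : γ = γ' := by
  by_contra hne
  have hne' : γ⁻¹ * γ' ≠ 1 := by
    intro h0
    exact hne (inv_mul_eq_one.1 h0)
  obtain ⟨W, hn, hW, hWs⟩ := hG.basis {γ⁻¹ * γ'}ᶜ isOpen_compl_singleton (fun h0 => hne' h0.symm)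
  obtain ⟨k, hk⟩ := pow_mem hG hn hW z
  obtain ⟨m, hm1, hm2⟩ := near z h k hW
  obtain ⟨m', hm1', hm2'⟩ := near z h' k hW
  have h1 : ‖((m' - m : ℤ) : ℤ_[p])‖ ≤ (p : ℝ) ^ (-(k : ℤ)) := by
    have e : ((m' - m : ℤ) : ℤ_[p]) = ((m' : ℤ_[p]) - a) + -((m : ℤ_[p]) - a) := by
      push_cast
      ring
    rw [e]
    refine (PadicInt.nonarchimedean _ _).trans (max_le hm1' ?_)
    rw [norm_neg]
    exact hm1
  rw [PadicInt.norm_int_le_pow_iff_dvd] at h1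
  obtain ⟨j, hj⟩ := h1
  have h2 : z ^ (m' - m) ∈ W := by
    rw [hj, zpow_mul]
    apply W.zpow_mem
    have e : z ^ ((p : ℤ) ^ k) = z ^ (p ^ k) := by
      rw [← zpow_natCast]
      push_cast
      rfl
    rw [e]
    exact hk
  have h3 : γ⁻¹ * γ' ∈ W := by
    have e : γ⁻¹ * γ' = (γ⁻¹ * z ^ m) * z ^ (m' - m) * (γ'⁻¹ * z ^ m')⁻¹ := by
      rw [zpow_sub]
      group
    rw [e]
    exact W.mul_mem (W.mul_mem hm2 h2) (W.inv_mem hm2')
  exact hWs h3 rfl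

end

end Q3x

section
variable {p : ℕ} [Fact p.Prime] {Γ : Type} [Group Γ] [TopologicalSpace Γ] [IsTopologicalGroup Γ]
  [CompactSpace Γ] [T2Space Γ]

/-- powers with exponents in the `p`-adic integers -/
theorem exists_pow (hG : Good p Γ) (z : Γ) :
    ∃ φ : ℤ_[p] → Γ, Continuous φ ∧ (∀ a b, φ (a + b) = φ a * φ b) ∧ φ 1 = z ∧
      ∀ γ ∈ closure (Subgroup.zpowers z : Set Γ), ∃ u, φ u = γ := by
  choose φ hφ using Q3x.exists_gr (p := p) z
  have huniq : ∀ a γ, (a, γ) ∈ closure (Q3x.gr p z) → φ a = γ :=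
    fun a γ h => Q3x.unique_gr hG z (hφ a) h
  have hint : ∀ m : ℤ, φ (m : ℤ_[p]) = z ^ m := fun m => huniq _ _ (subset_closure ⟨m, rfl⟩)
  have hcont : Continuous φ := by
    rw [continuous_iff_isClosed]
    intro C hC
    have h1 : IsClosed (Prod.fst '' (closure (Q3x.gr p z) ∩ Prod.snd ⁻¹' C)) :=
      isClosedMap_fst_of_compactSpace _ (isClosed_closure.inter (hC.preimage continuous_snd))
    have h2 : φ ⁻¹' C = Prod.fst '' (closure (Q3x.gr p z) ∩ Prod.snd ⁻¹' C) := by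
      ext a
      constructor
      · intro ha
        exact ⟨(a, φ a), ⟨hφ a, ha⟩, rfl⟩
      · rintro ⟨⟨b, γ⟩, ⟨h3, h4⟩, h5⟩
        have h5' : b = a := h5
        subst h5'
        show φ b ∈ C
        rw [huniq b γ h3]
        exact h4
    rw [h2]
    exact h1
  refine ⟨φ, hcont, fun a b => ?_, ?_, fun γ hγ => ?_⟩
  · apply huniq
    have h1 : Continuous fun q : (ℤ_[p] × Γ) × (ℤ_[p] × Γ) => (q.1.1 + q.2.1, q.1.2 * q.2.2) := by
      fun_prop
    exact map_mem_closure₂ (f := fun (x y : ℤ_[p] × Γ) => (x.1 + y.1, x.2 * y.2)) h1 (hφ a) (hφ b)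
      (by
        rintro _ ⟨m, rfl⟩ _ ⟨m', rfl⟩
        refine ⟨m + m', ?_⟩
        simp only [Int.cast_add, zpow_add])
  · have h1 := hint 1
    rw [Int.cast_one, zpow_one] at h1
    exact h1
  · have h1 : IsClosed (Set.range φ) := (isCompact_range hcont).isClosed
    have h2 : (Subgroup.zpowers z : Set Γ) ⊆ Set.range φ := by
      rintro _ ⟨m, rfl⟩
      exact ⟨(m : ℤ_[p]), hint m⟩
    exact closure_minimal h2 h1 hγ

end

section
variable {p : ℕ} [Fact p.Prime] {Γ : Type} [Group Γ] [TopologicalSpace Γ] [IsTopologicalGroup Γ]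
  [T2Space Γ]

namespace Q3x

omit [T2Space Γ] in
theorem cont_HZ {f : Γ → ℤ_[p]} (hf : HZ p ⊤ f) : Continuous f := by
  rw [continuous_iff_continuousAt]
  intro x
  rw [ContinuousAt, Metric.tendsto_nhds]
  intro ε hε
  have hp1 : (1 : ℝ) < p := by exact_mod_cast (Fact.out : p.Prime).one_lt
  obtain ⟨k, hk⟩ := exists_pow_lt_of_lt_one hε (inv_lt_one_of_one_lt₀ hp1)
  obtain ⟨W, hW, h1⟩ := hf.2 k
  have h2 : IsOpen {y : Γ | x⁻¹ * y ∈ W} := hW.preimage (continuous_const_mul x⁻¹)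
  have h3 : x ∈ {y : Γ | x⁻¹ * y ∈ W} := by
    show x⁻¹ * x ∈ W
    rw [inv_mul_cancel]
    exact W.one_mem
  filter_upwards [h2.mem_nhds h3] with y hy
  have h4 := h1 x (Subgroup.mem_top _) (x⁻¹ * y) (Subgroup.mem_top _) hy
  rw [mul_inv_cancel_left] at h4
  rw [dist_eq_norm]
  have h5 : ‖f y - f x‖ ≤ (p : ℝ) ^ (-(k : ℤ)) := by
    rw [PadicInt.norm_le_pow_iff_mem_span_pow, Ideal.mem_span_singleton]
    exact h4
  refine lt_of_le_of_lt h5 ?_
  rw [zpow_neg, zpow_natCast, ← inv_pow]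
  exact hk

omit [T2Space Γ] [TopologicalSpace Γ] [IsTopologicalGroup Γ] in
theorem phi_zero {φ : ℤ_[p] → Γ} (hadd : ∀ a b, φ (a + b) = φ a * φ b) : φ 0 = 1 := by
  have h := hadd 0 0
  rw [add_zero] at h
  exact (mul_eq_left.1 h.symm)

end Q3x

/-- homomorphisms in `HZ` are linear on powers -/
theorem HZ_pow {φ : ℤ_[p] → Γ} (hφ : Continuous φ) (hadd : ∀ a b, φ (a + b) = φ a * φ b)
    {f : Γ → ℤ_[p]} (hf : HZ p ⊤ f) (u : ℤ_[p]) : f (φ u) = u * f (φ 1) := by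
  have hf1 : f 1 = 0 := by
    have h := hf.1 1 (Subgroup.mem_top _) 1 (Subgroup.mem_top _)
    rw [mul_one] at h
    exact left_eq_add.1 h
  have hnat : ∀ n : ℕ, f (φ (n : ℤ_[p])) = (n : ℤ_[p]) * f (φ 1) := by
    intro n
    induction n with
    | zero => rw [Nat.cast_zero, Q3x.phi_zero hadd, hf1, zero_mul]
    | succ n ih =>
      rw [Nat.cast_succ, hadd, hf.1 _ (Subgroup.mem_top _) _ (Subgroup.mem_top _), ih]
      ring
  have h := PadicInt.denseRange_natCast.equalizer ((Q3x.cont_HZ hf).comp hφ)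
    (continuous_id.mul (continuous_const (y := f (φ 1)))) (funext hnat)
  exact congrFun h u

/-- automorphisms fixing `z` fix its powers -/
theorem fix_pow {φ : ℤ_[p] → Γ} (hφ : Continuous φ) (hadd : ∀ a b, φ (a + b) = φ a * φ b)
    {t : MulAut Γ} (ht : Continuous t) (h : t (φ 1) = φ 1) (u : ℤ_[p]) : t (φ u) = φ u := by
  have hnat : ∀ n : ℕ, t (φ (n : ℤ_[p])) = φ (n : ℤ_[p]) := by
    intro n
    induction n with
    | zero => rw [Nat.cast_zero, Q3x.phi_zero hadd, map_one]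
    | succ n ih => rw [Nat.cast_succ, hadd, map_mul, ih, h]
  have h := PadicInt.denseRange_natCast.equalizer (ht.comp hφ) hφ (funext hnat)
  exact congrFun h u

end

end Pool.Agent.H371.PM
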