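import Pool.Agent.H371.PM.Q2
import Pool.Agent.H371.PM.Q3

set_option autoImplicit false

namespace Pool.Agent.H371.PM

open Pool.Agent.H371.SE

namespace Q4x

variable {Γ : Type} [Group Γ]

theorem mul_conj (s : MulAut Γ) (g : Γ) : s * MulAut.conj g = MulAut.conj (s g) * s := by
  ext x
  simp only [MulAut.mul_apply, MulAut.conj_apply, map_mul, map_inv]

theorem nm_succ (t : MulAut Γ) (k : ℕ) (a : Γ) : nm t (k + 1) a = nm t k a * (t ^ k) a := by
  simp [nm, List.range_succ]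

theorem conj_mul_pow (t : MulAut Γ) (a : Γ) (k : ℕ) :
    (MulAut.conj a * t) ^ k = MulAut.conj (nm t k a) * t ^ k := by
  induction k with
  | zero => simp [nm]
  | succ k ih =>
    rw [pow_succ, ih, nm_succ, map_mul, mul_assoc, ← mul_assoc (t ^ k), mul_conj, pow_succ]
    simp only [mul_assoc]

end Q4x

section
variable {p : ℕ} [Fact p.Prime] {Γ : Type} [Group Γ] [TopologicalSpace Γ] [IsTopologicalGroup Γ]
  [CompactSpace Γ] [T2Space Γ]

/-- the exponent `u` of `t` at a conjugacy class preserved by `t` -/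
theorem exists_unit (hG : Good p Γ) {t : MulAut Γ} (ht : Continuous t) (htp : t ^ p = 1) {z c : Γ}
    (hc : t z = c * z * c⁻¹) {χ : Γ → ZMod p} (h1 : AddOn ⊤ χ) (h2 : LC ⊤ χ) (h3 : χ z ≠ 0) :
    ∃ u : ℤ_[p], (∀ f : Γ → ℤ_[p], HZ p ⊤ f →
        ∑ i ∈ Finset.range p, f ((t ^ i) c⁻¹) = u * f z) ∧
      ((p : ℤ_[p]) ∣ u → ∃ d : Γ, (MulAut.conj d * t) z = z ∧ (MulAut.conj d * t) ^ p = 1) := by
  have hT : (MulAut.conj c⁻¹ * t) ^ p = MulAut.conj (nm t p c⁻¹) := by
    rw [Q4x.conj_mul_pow, htp, mul_one]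
  have hTz : (MulAut.conj c⁻¹ * t) z = z := by
    rw [MulAut.mul_apply, MulAut.conj_apply, hc]
    group
  have hfix : ∀ k : ℕ, ((MulAut.conj c⁻¹ * t) ^ k) z = z := by
    intro k
    induction k with
    | zero => simp
    | succ k ih => rw [pow_succ, MulAut.mul_apply, hTz, ih]
  have hcomm : nm t p c⁻¹ * z = z * nm t p c⁻¹ := by
    have h4 := hfix p
    rw [hT, MulAut.conj_apply] at h4
    exact mul_inv_eq_iff_eq_mul.1 h4
  obtain ⟨φ, hφ, hadd, hφ1, hsurj⟩ := exists_pow hG z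
  obtain ⟨u, hu⟩ := hsurj _ (mem_closure_of_comm hG hcomm h1 h2 h3)
  refine ⟨u, ?_, ?_⟩
  · intro f hf
    have h4 := (A0x.add_nm (t := t) (U := (⊤ : Subgroup Γ)) (fun _ _ => Subgroup.mem_top _) hf.1
      (Subgroup.mem_top c⁻¹) p).2
    rw [← h4, ← hu, HZ_pow hφ hadd hf u, hφ1]
  · rintro ⟨u', hu'⟩
    have h0 : φ 0 = 1 := by
      have h4 := hadd 0 0
      rw [add_zero] at h4
      exact left_eq_mul.1 h4
    have hpow : ∀ (k : ℕ) (v : ℤ_[p]), φ v ^ k = φ ((k : ℤ_[p]) * v) := by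
      intro k v
      induction k with
      | zero => simp [h0]
      | succ k ih => rw [pow_succ, ih, ← hadd, Nat.cast_succ, add_mul, one_mul]
    have hδp : φ u' ^ p = nm t p c⁻¹ := by
      rw [hpow, ← hu', hu]
    have hT1c : Continuous (MulAut.conj c⁻¹ * t) := by
      have h4 : ((MulAut.conj c⁻¹ * t : MulAut Γ) : Γ → Γ) = fun x => c⁻¹ * t x * c⁻¹⁻¹ := by
        funext x
        rw [MulAut.mul_apply, MulAut.conj_apply]
      rw [h4]
      exact (continuous_const.mul ht).mul continuous_const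
    have hδ : (MulAut.conj c⁻¹ * t) (φ u') = φ u' :=
      fix_pow hφ hadd hT1c (by rw [hφ1]; exact hTz) u'
    have hδz : φ u' * z = z * φ u' := by
      rw [← hφ1, ← hadd, ← hadd, add_comm]
    refine ⟨(φ u')⁻¹ * c⁻¹, ?_, ?_⟩
    · rw [map_mul, mul_assoc, MulAut.mul_apply, hTz, MulAut.conj_apply, inv_inv, mul_assoc, ← hδz,
        inv_mul_cancel_left]
    · have hC : Commute (MulAut.conj (φ u')⁻¹) (MulAut.conj c⁻¹ * t) := by
        change MulAut.conj (φ u')⁻¹ * (MulAut.conj c⁻¹ * t) =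
          (MulAut.conj c⁻¹ * t) * MulAut.conj (φ u')⁻¹
        rw [Q4x.mul_conj (MulAut.conj c⁻¹ * t), map_inv (MulAut.conj c⁻¹ * t), hδ]
      rw [map_mul, mul_assoc, hC.mul_pow, hT, ← map_pow, inv_pow, hδp, ← map_mul,
        inv_mul_cancel, map_one]

end

end Pool.Agent.H371.PM
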