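import Mathlib

set_option autoImplicit false

namespace Pool.Agent.H371.PM

namespace Q5x

open Polynomial

section

variable {p : ℕ} [Fact p.Prime] {l r : ℕ} {H : Type} [AddCommGroup H] [Module ℤ_[p] H]

/-- the norm polynomial -/
noncomputable def NN (p : ℕ) [Fact p.Prime] : ℤ_[p][X] := ∑ k ∈ Finset.range p, (X + 1) ^ k

theorem X_mul_NN : (X : ℤ_[p][X]) * NN p = (X + 1) ^ p - 1 := by
  unfold NN
  rw [← mul_geom_sum, add_sub_cancel_right]

theorem coeff_NN : (NN p).coeff 0 = (p : ℤ_[p]) := by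
  rw [coeff_zero_eq_eval_zero]
  unfold NN
  rw [eval_finsetSum]
  simp

theorem aeval_NN (Y : Module.End ℤ_[p] H) :
    aeval (Y - 1) (NN p) = ∑ k ∈ Finset.range p, Y ^ k := by
  unfold NN
  rw [map_sum]
  refine Finset.sum_congr rfl fun k _ => ?_
  rw [map_pow, map_add, aeval_X, map_one, sub_add_cancel]

theorem aeval_split (T : Module.End ℤ_[p] H) (f : ℤ_[p][X]) (x : H) :
    aeval T f x = aeval T (divX f) (T x) + f.coeff 0 • x := by
  conv_lhs => rw [← divX_mul_X_add f]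
  rw [map_add, map_mul, aeval_X, aeval_C]
  rfl

theorem N_aeval (Y : Module.End ℤ_[p] H) (hY : Y ^ p = 1) (f : ℤ_[p][X]) (x : H) :
    aeval (Y - 1) (NN p) (aeval (Y - 1) f x) = f.coeff 0 • aeval (Y - 1) (NN p) x := by
  have h1 : aeval (Y - 1) (NN p) ((Y - 1) x) = 0 := by
    have h2 : aeval (Y - 1) ((X : ℤ_[p][X]) * NN p) = 0 := by
      rw [X_mul_NN, map_sub, map_pow, map_add, aeval_X, map_one, sub_add_cancel, hY, sub_self]
    rw [mul_comm, map_mul, aeval_X] at h2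
    have h3 := congrArg (fun g : Module.End ℤ_[p] H => g x) h2
    exact h3
  rw [aeval_split (Y - 1) f x, map_add, map_smul]
  have h4 : aeval (Y - 1) (NN p) (aeval (Y - 1) (divX f) ((Y - 1) x)) =
      aeval (Y - 1) (divX f) (aeval (Y - 1) (NN p) ((Y - 1) x)) := by
    have h5 : aeval (Y - 1) (NN p * divX f) = aeval (Y - 1) (divX f * NN p) := by
      rw [mul_comm]
    rw [map_mul, map_mul] at h5
    exact congrArg (fun g : Module.End ℤ_[p] H => g ((Y - 1) x)) h5
  rw [h4, h1, map_zero, zero_add]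

/-- the element defined by polynomials -/
noncomputable def E (T : Module.End ℤ_[p] H) (h : Fin r → H) (f : Fin r → ℤ_[p][X]) : H :=
  ∑ i, aeval T (f i) (h i)

theorem E_add (T : Module.End ℤ_[p] H) (h : Fin r → H) (f g : Fin r → ℤ_[p][X]) :
    E T h (fun i => f i + g i) = E T h f + E T h g := by
  unfold E
  rw [← Finset.sum_add_distrib]
  refine Finset.sum_congr rfl fun i _ => ?_
  rw [map_add]
  rfl

theorem E_mul (T : Module.End ℤ_[p] H) (h : Fin r → H) (q : ℤ_[p][X]) (f : Fin r → ℤ_[p][X]) :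
    E T h (fun i => q * f i) = aeval T q (E T h f) := by
  unfold E
  rw [map_sum]
  refine Finset.sum_congr rfl fun i _ => ?_
  rw [map_mul]
  rfl

/-- the data -/
structure Dat (p : ℕ) [Fact p.Prime] {l r : ℕ} {H : Type} [AddCommGroup H] [Module ℤ_[p] H]
    (Y : Module.End ℤ_[p] H) (π : H →ₗ[ℤ_[p]] (Fin l → ℤ_[p])) (v : Fin r → H)
    (u : Fin r → ℤ_[p]) (h : Fin r → H) : Prop where
  hX : Y ^ p = 1
  hπ : ∀ q, π q = 0 → Y q = q
  hπv : ∀ i, π (v i) = 0
  hv : ∀ (a : Fin r → ℤ_[p]) (q : H), π q = 0 → ∑ i, a i • v i = (p : ℤ_[p]) • q →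
      ∀ i, (p : ℤ_[p]) ∣ a i
  hu : ∀ i, ¬ (p : ℤ_[p]) ∣ u i
  hN : ∀ i, ∑ k ∈ Finset.range p, (Y ^ k) (h i) = u i • v i

variable {Y : Module.End ℤ_[p] H} {π : H →ₗ[ℤ_[p]] (Fin l → ℤ_[p])} {v : Fin r → H}
  {u : Fin r → ℤ_[p]} {h : Fin r → H}

theorem Dat.N_h (D : Dat p Y π v u h) (i : Fin r) :
    aeval (Y - 1) (NN p) (h i) = u i • v i := by
  rw [aeval_NN, LinearMap.sum_apply]
  exact D.hN i

theorem Dat.N_E (D : Dat p Y π v u h) (f : Fin r → ℤ_[p][X]) :
    aeval (Y - 1) (NN p) (E (Y - 1) h f) = ∑ i, ((f i).coeff 0 * u i) • v i := by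
  unfold E
  rw [map_sum]
  refine Finset.sum_congr rfl fun i _ => ?_
  rw [N_aeval Y D.hX, D.N_h, smul_smul]

theorem Dat.π_N_E (D : Dat p Y π v u h) (f : Fin r → ℤ_[p][X]) :
    π (aeval (Y - 1) (NN p) (E (Y - 1) h f)) = 0 := by
  rw [D.N_E, map_sum]
  refine Finset.sum_eq_zero fun i _ => ?_
  rw [map_smul, D.hπv, smul_zero]

theorem Dat.aeval_ker (D : Dat p Y π v u h) (f : ℤ_[p][X]) {z : H} (hz : π z = 0) :
    aeval (Y - 1) f z = f.coeff 0 • z := by
  have h1 : (Y - 1) z = 0 := by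
    have h2 : (Y - 1) z = Y z - z := rfl
    rw [h2, D.hπ z hz, sub_self]
  rw [aeval_split, h1, map_zero, zero_add]

theorem Dat.f1 (D : Dat p Y π v u h) {f : Fin r → ℤ_[p][X]} (hf : π (E (Y - 1) h f) = 0)
    (i : Fin r) : (p : ℤ_[p]) ∣ (f i).coeff 0 := by
  have h1 := D.N_E f
  rw [D.aeval_ker _ hf, coeff_NN] at h1
  have h2 := D.hv _ _ hf h1.symm i
  exact (PadicInt.prime_p.dvd_or_dvd h2).resolve_right (D.hu i)

theorem Dat.f2 (D : Dat p Y π v u h) {f : Fin r → ℤ_[p][X]}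
    (hf : π (E (Y - 1) h (fun i => X * f i)) = 0) : π (E (Y - 1) h f) = 0 := by
  rw [E_mul, aeval_X] at hf
  have h1 := D.π_N_E f
  rw [aeval_split, D.aeval_ker _ hf, coeff_NN, map_add, map_smul, map_smul, hf, smul_zero,
    zero_add] at h1
  have hp : (p : ℤ_[p]) ≠ 0 := PadicInt.prime_p.ne_zero
  exact (smul_eq_zero.1 h1).resolve_left hp

theorem Dat.step (D : Dat p Y π v u h) {f : Fin r → ℤ_[p][X]} (hf : π (E (Y - 1) h f) = 0) :
    ∃ (c : Fin r → ℤ_[p][X]) (f' : Fin r → ℤ_[p][X]), π (E (Y - 1) h f') = 0 ∧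
      ∀ i, f i = NN p * c i + X * f' i := by
  choose c hc using fun i => D.f1 hf i
  have h1 : ∀ i, f i = NN p * C (c i) + X * (divX (f i) - divX (NN p) * C (c i)) := by
    intro i
    have h2 := divX_mul_X_add (f i)
    have h3 := divX_mul_X_add (NN p)
    rw [coeff_NN] at h3
    rw [hc i, C_mul] at h2
    calc f i = divX (f i) * X + C (p : ℤ_[p]) * C (c i) := h2.symm
      _ = (divX (NN p) * X + C (p : ℤ_[p])) * C (c i) +
          X * (divX (f i) - divX (NN p) * C (c i)) := by ring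
      _ = _ := by rw [h3]
  refine ⟨fun i => C (c i), fun i => divX (f i) - divX (NN p) * C (c i), ?_, h1⟩
  apply D.f2
  have h2 : E (Y - 1) h f = E (Y - 1) h (fun i => NN p * C (c i)) +
      E (Y - 1) h (fun i => X * (divX (f i) - divX (NN p) * C (c i))) := by
    rw [← E_add]
    congr 1
    funext i
    exact h1 i
  rw [h2, map_add, E_mul, D.π_N_E, zero_add] at hf
  exact hf

theorem Dat.iter (D : Dat p Y π v u h) {f : Fin r → ℤ_[p][X]} (hf : π (E (Y - 1) h f) = 0)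
    (n : ℕ) : ∃ (c : Fin r → ℤ_[p][X]) (f' : Fin r → ℤ_[p][X]), π (E (Y - 1) h f') = 0 ∧
      ∀ i, f i = NN p * c i + X ^ n * f' i := by
  induction n with
  | zero => exact ⟨fun _ => 0, f, hf, fun i => by ring⟩
  | succ n ih =>
    obtain ⟨c, f', hf', h1⟩ := ih
    obtain ⟨c', f'', hf'', h2⟩ := D.step hf'
    refine ⟨fun i => c i + X ^ n * c' i, f'', hf'', fun i => ?_⟩
    rw [h1 i, h2 i]
    ring

theorem map_NN : (NN p).map (PadicInt.toZMod (p := p)) = X ^ (p - 1) := by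
  have hp : 1 ≤ p := (Fact.out : p.Prime).one_lt.le
  have h1 : (X : (ZMod p)[X]) * (NN p).map (PadicInt.toZMod (p := p)) = X * X ^ (p - 1) := by
    have h2 := congrArg (Polynomial.map (PadicInt.toZMod (p := p))) (X_mul_NN (p := p))
    rw [Polynomial.map_mul, Polynomial.map_sub, Polynomial.map_pow, Polynomial.map_add,
      Polynomial.map_X, Polynomial.map_one, add_pow_char, one_pow, add_sub_cancel_right] at h2
    rw [h2, ← pow_succ', Nat.sub_add_cancel hp]
  exact mul_left_cancel₀ X_ne_zero h1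

theorem Dat.dvd (D : Dat p Y π v u h) {f : Fin r → ℤ_[p][X]} (hf : π (E (Y - 1) h f) = 0)
    (i : Fin r) (k : ℕ) (hk : k < p - 1) : (p : ℤ_[p]) ∣ (f i).coeff k := by
  obtain ⟨c, f', -, h1⟩ := D.iter hf (p - 1)
  have h2 : (X : (ZMod p)[X]) ^ (p - 1) ∣ (f i).map (PadicInt.toZMod (p := p)) := by
    rw [h1 i, Polynomial.map_add, Polynomial.map_mul, Polynomial.map_mul, Polynomial.map_pow,
      Polynomial.map_X, map_NN]
    exact dvd_add (Dvd.intro _ rfl) (Dvd.intro _ rfl)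
  rw [X_pow_dvd_iff] at h2
  have h3 := h2 k hk
  rw [coeff_map] at h3
  have h4 : (f i).coeff k ∈ RingHom.ker (PadicInt.toZMod (p := p)) := h3
  rw [PadicInt.ker_toZMod, PadicInt.maximalIdeal_eq_span_p, Ideal.mem_span_singleton] at h4
  exact h4

end

end Q5x

open Q5x Polynomial in
/-- the count of fixed points -/
theorem lin (p : ℕ) [Fact p.Prime] {l r : ℕ} {H : Type} [AddCommGroup H] [Module ℤ_[p] H]
    (X : Module.End ℤ_[p] H) (hX : X ^ p = 1) (π : H →ₗ[ℤ_[p]] (Fin l → ℤ_[p]))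
    (hπ : ∀ q, π q = 0 → X q = q) (v : Fin r → H) (hπv : ∀ i, π (v i) = 0)
    (hv : ∀ (a : Fin r → ℤ_[p]) (q : H), π q = 0 → ∑ i, a i • v i = (p : ℤ_[p]) • q →
      ∀ i, (p : ℤ_[p]) ∣ a i)
    (u : Fin r → ℤ_[p]) (hu : ∀ i, ¬ (p : ℤ_[p]) ∣ u i) (h : Fin r → H)
    (hN : ∀ i, ∑ k ∈ Finset.range p, (X ^ k) (h i) = u i • v i) : r * (p - 1) ≤ l := by
  have D : Dat p X π v u h := ⟨hX, hπ, hπv, hv, hu, hN⟩
  have hp0 : (p : ℤ_[p]) ≠ 0 := PadicInt.prime_p.ne_zero
  set w : Fin r × Fin (p - 1) → (Fin l → ℤ_[p]) :=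
    fun x => π (((X - 1) ^ (x.2 : ℕ)) (h x.1)) with hw
  -- the polynomials of a relation
  have hrel : ∀ g : Fin r × Fin (p - 1) → ℤ_[p], ∑ x, g x • w x = 0 →
      ∀ x, (p : ℤ_[p]) ∣ g x := by
    intro g hg x
    set f : Fin r → ℤ_[p][X] := fun i => ∑ k : Fin (p - 1), C (g (i, k)) * Polynomial.X ^ (k : ℕ)
      with hf
    have h1 : π (E (X - 1) h f) = 0 := by
      rw [← hg, Fintype.sum_prod_type]
      unfold E
      rw [map_sum]
      refine Finset.sum_congr rfl fun i _ => ?_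
      simp only [hf, map_sum, LinearMap.sum_apply]
      refine Finset.sum_congr rfl fun k _ => ?_
      rw [map_mul, map_pow, aeval_X, aeval_C]
      have h2 : ((algebraMap ℤ_[p] (Module.End ℤ_[p] H)) (g (i, k)) * (X - 1) ^ (k : ℕ)) (h i) =
          g (i, k) • ((X - 1) ^ (k : ℕ)) (h i) := rfl
      rw [h2, map_smul]
    have h2 := D.dvd h1 x.1 x.2 x.2.isLt
    have h3 : (f x.1).coeff (x.2 : ℕ) = g x := by
      simp only [hf, finsetSum_coeff, coeff_C_mul, coeff_X_pow]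
      rw [Finset.sum_eq_single x.2]
      · simp
      · intro k _ hk
        rw [if_neg (fun h => hk (Fin.ext h.symm)), mul_zero]
      · intro h
        exact absurd (Finset.mem_univ _) h
    rw [h3] at h2
    exact h2
  have hpow : ∀ (n : ℕ) (g : Fin r × Fin (p - 1) → ℤ_[p]), ∑ x, g x • w x = 0 →
      ∀ x, (p : ℤ_[p]) ^ n ∣ g x := by
    intro n
    induction n with
    | zero => intro g _ x; rw [pow_zero]; exact one_dvd _
    | succ n ih =>
      intro g hg x
      choose g' hg' using hrel g hg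
      have h1 : ∑ x, g' x • w x = 0 := by
        have h2 : (p : ℤ_[p]) • ∑ x, g' x • w x = 0 := by
          rw [← hg, Finset.smul_sum]
          refine Finset.sum_congr rfl fun x _ => ?_
          rw [smul_smul, ← hg' x]
        exact (smul_eq_zero.1 h2).resolve_left hp0
      rw [hg' x, pow_succ, mul_comm]
      exact mul_dvd_mul_left _ (ih g' h1 x)
  have hli : LinearIndependent ℤ_[p] w := by
    rw [Fintype.linearIndependent_iff]
    intro g hg x
    by_contra h0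
    obtain ⟨n, hn⟩ := FiniteMultiplicity.of_not_isUnit (PadicInt.prime_p (p := p)).not_isUnit h0
    exact hn (hpow (n + 1) g hg x)
  have h1 := hli.fintype_card_le_finrank
  rw [Fintype.card_prod, Fintype.card_fin, Fintype.card_fin, Module.finrank_fin_fun] at h1
  exact h1

end Pool.Agent.H371.PM
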