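import Pool.Agent.H371.PM.Q1

set_option autoImplicit false

namespace Pool.Agent.H371.PM

open Pool.Agent.H371.SE

namespace Q6x

section
variable {n : ℕ} {D : ℕ → Subgroup (FreeGroup (Fin n))}
  {Γ : Type} [Group Γ] [TopologicalSpace Γ]
  {ι : FreeGroup (Fin n) →* Γ} {E : ℕ → Subgroup Γ}
  {n' : ℕ} {D' : ℕ → Subgroup (FreeGroup (Fin n'))}
  {Γ' : Type} [Group Γ'] [TopologicalSpace Γ']
  {ι' : FreeGroup (Fin n') →* Γ'} {E' : ℕ → Subgroup Γ'}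

theorem close (hM : Model D Γ ι E) {k : ℕ} {x : Γ} {f g : FreeGroup (Fin n)}
    (hf : x⁻¹ * ι f ∈ E k) (hg : x⁻¹ * ι g ∈ E k) : f⁻¹ * g ∈ D k := by
  rw [← hM.mem_iff, map_mul, map_inv]
  have h1 : (ι f)⁻¹ * ι g = (x⁻¹ * ι f)⁻¹ * (x⁻¹ * ι g) := by group
  rw [h1]
  exact (E k).mul_mem ((E k).inv_mem hf) hg

theorem mul_close {E : Subgroup Γ} (hE : E.Normal) {x x' u u' : Γ}
    (hf : x⁻¹ * u ∈ E) (hf' : x'⁻¹ * u' ∈ E) : (x * x')⁻¹ * (u * u') ∈ E := by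
  have h1 : (x * x')⁻¹ * (u * u') = (x'⁻¹ * (x⁻¹ * u) * x'⁻¹⁻¹) * (x'⁻¹ * u') := by group
  rw [h1]
  exact E.mul_mem (hE.conj_mem _ hf _) hf'

/-- `y` is the image of `x` under the extension of `φ` -/
def R (ι : FreeGroup (Fin n) →* Γ) (E : ℕ → Subgroup Γ) (E' : ℕ → Subgroup Γ') (m : ℕ → ℕ)
    (φ : FreeGroup (Fin n) →* Γ') (x : Γ) (y : Γ') : Prop :=
  ∀ k f, x⁻¹ * ι f ∈ E (m k) → y⁻¹ * φ f ∈ E' k

theorem R_of (hM : Model D Γ ι E) {m : ℕ → ℕ} {φ : FreeGroup (Fin n) →* Γ'}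
    (hφ : ∀ k, ∀ x ∈ D (m k), φ x ∈ E' k) {x : Γ} {y : Γ'}
    (H : ∀ k, ∃ f, x⁻¹ * ι f ∈ E (m k) ∧ y⁻¹ * φ f ∈ E' k) : R ι E E' m φ x y := by
  intro k g hg
  obtain ⟨f, hf, hf'⟩ := H k
  have h1 := hφ k _ (close hM hf hg)
  have h2 : y⁻¹ * φ g = (y⁻¹ * φ f) * φ (f⁻¹ * g) := by
    rw [map_mul, map_inv]
    group
  rw [h2]
  exact (E' k).mul_mem hf' h1

theorem R_exists (hM : Model D Γ ι E) (hM' : Model D' Γ' ι' E') {m : ℕ → ℕ}
    (hm : ∀ k, m k ≤ m (k + 1)) {φ : FreeGroup (Fin n) →* Γ'}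
    (hφ : ∀ k, ∀ x ∈ D (m k), φ x ∈ E' k) (x : Γ) : ∃ y, R ι E E' m φ x y := by
  choose f hf using fun k => hM.dense (m k) x
  choose g hg using fun k => hM'.dense k (φ (f k))
  obtain ⟨y, hy⟩ := hM'.complete g fun k => by
    have h1 : (f k)⁻¹ * f (k + 1) ∈ D (m k) := close hM (hf k) (hM.anti (hm k) (hf (k + 1)))
    have h2 := hφ k _ h1
    rw [map_mul, map_inv] at h2
    have h3 := hg k
    have h4 := hM'.anti (Nat.le_succ k) (hg (k + 1))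
    rw [← hM'.mem_iff, map_mul, map_inv]
    have h5 : (ι' (g k))⁻¹ * ι' (g (k + 1)) = ((φ (f k))⁻¹ * ι' (g k))⁻¹ *
        ((φ (f k))⁻¹ * φ (f (k + 1))) * ((φ (f (k + 1)))⁻¹ * ι' (g (k + 1))) := by group
    rw [h5]
    exact (E' k).mul_mem ((E' k).mul_mem ((E' k).inv_mem h3) h2) h4
  refine ⟨y, R_of hM hφ fun k => ⟨f k, hf k, ?_⟩⟩
  have h6 : y⁻¹ * φ (f k) = (y⁻¹ * ι' (g k)) * ((φ (f k))⁻¹ * ι' (g k))⁻¹ := by group
  rw [h6]
  exact (E' k).mul_mem (hy k) ((E' k).inv_mem (hg k))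

theorem R_unique (hM : Model D Γ ι E) (hM' : Model D' Γ' ι' E') {m : ℕ → ℕ}
    {φ : FreeGroup (Fin n) →* Γ'} {x : Γ} {y y' : Γ'} (h1 : R ι E E' m φ x y)
    (h2 : R ι E E' m φ x y') : y = y' := by
  have h3 : y⁻¹ * y' = 1 := by
    refine hM'.sep _ fun k => ?_
    obtain ⟨f, hf⟩ := hM.dense (m k) x
    have h4 : y⁻¹ * y' = (y⁻¹ * φ f) * (y'⁻¹ * φ f)⁻¹ := by group
    rw [h4]
    exact (E' k).mul_mem (h1 k f hf) ((E' k).inv_mem (h2 k f hf))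
  exact inv_mul_eq_one.1 h3

theorem R_mul (hM : Model D Γ ι E) (hM' : Model D' Γ' ι' E') {m : ℕ → ℕ}
    {φ : FreeGroup (Fin n) →* Γ'} (hφ : ∀ k, ∀ x ∈ D (m k), φ x ∈ E' k) {x x' : Γ} {y y' : Γ'}
    (h1 : R ι E E' m φ x y) (h2 : R ι E E' m φ x' y') : R ι E E' m φ (x * x') (y * y') := by
  refine R_of hM hφ fun k => ?_
  obtain ⟨f, hf⟩ := hM.dense (m k) x
  obtain ⟨f', hf'⟩ := hM.dense (m k) x'
  refine ⟨f * f', ?_, ?_⟩
  · rw [map_mul]
    exact mul_close (hM.normal (m k)) hf hf'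
  · rw [map_mul]
    exact mul_close (hM'.normal k) (h1 k f hf) (h2 k f' hf')

end

end Q6x

open Q6x

section
variable {p : ℕ} [Fact p.Prime] {n : ℕ} {D : ℕ → Subgroup (FreeGroup (Fin n))}
  {Γ : Type} [Group Γ] [TopologicalSpace Γ] [IsTopologicalGroup Γ] [CompactSpace Γ] [T2Space Γ]
  {ι : FreeGroup (Fin n) →* Γ} {E : ℕ → Subgroup Γ}
  {n' : ℕ} {D' : ℕ → Subgroup (FreeGroup (Fin n'))}
  {Γ' : Type} [Group Γ'] [TopologicalSpace Γ'] [IsTopologicalGroup Γ'] [CompactSpace Γ']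
  [T2Space Γ'] {ι' : FreeGroup (Fin n') →* Γ'} {E' : ℕ → Subgroup Γ'}

/-- homomorphisms from the free group extend to the completion -/
theorem exists_ext (hD : Chain p n D) (hM : Model D Γ ι E) (hD' : Chain p n' D')
    (hM' : Model D' Γ' ι' E') (φ : FreeGroup (Fin n) →* Γ') :
    ∃ q : Γ →* Γ', Continuous q ∧ ∀ x, q (ι x) = φ x := by
  have hcof : ∀ k, ∃ m, ∀ x ∈ D m, φ x ∈ E' k := by
    intro k
    have hn := hM'.normal k
    have hfin : Finite (Γ' ⧸ E' k) := Subgroup.quotient_finite_of_isOpen _ (hM'.isOpen k)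
    have hQ : IsPGroup p (Γ' ⧸ E' k) := by
      intro g
      obtain ⟨x, rfl⟩ := QuotientGroup.mk_surjective g
      obtain ⟨j, hj⟩ := pow_mem (Model.good hD' hM') hn (hM'.isOpen k) x
      refine ⟨j, ?_⟩
      rw [← QuotientGroup.mk_pow]
      exact (QuotientGroup.eq_one_iff _).2 hj
    obtain ⟨m, hm⟩ := hD.cof_group hQ ((QuotientGroup.mk' (E' k)).comp φ)
    exact ⟨m, fun x hx => (QuotientGroup.eq_one_iff _).1 (hm x hx)⟩
  choose m0 hm0 using hcof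
  obtain ⟨m, hmdef⟩ : ∃ m : ℕ → ℕ, m = fun k => ∑ i ∈ Finset.range (k + 1), m0 i := ⟨_, rfl⟩
  have hm : ∀ k, m k ≤ m (k + 1) := by
    intro k
    rw [hmdef]
    show ∑ i ∈ Finset.range (k + 1), m0 i ≤ ∑ i ∈ Finset.range (k + 1 + 1), m0 i
    rw [Finset.sum_range_succ _ (k + 1)]
    exact Nat.le_add_right _ _
  have hmm : ∀ k, m0 k ≤ m k := by
    intro k
    rw [hmdef]
    exact Finset.single_le_sum (f := m0) (fun i _ => Nat.zero_le _)
      (Finset.mem_range.2 (Nat.lt_succ_self k))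
  have hφ : ∀ k, ∀ x ∈ D (m k), φ x ∈ E' k := fun k x hx => hm0 k x (hD.anti (hmm k) hx)
  choose T hT using R_exists hM hM' hm hφ
  let q : Γ →* Γ' :=
    { toFun := T
      map_one' := R_unique hM hM' (hT 1) (R_of hM hφ fun k =>
        ⟨1, by rw [map_one, inv_one, one_mul]; exact (E (m k)).one_mem,
          by rw [map_one, inv_one, one_mul]; exact (E' k).one_mem⟩)
      map_mul' := fun x y => R_unique hM hM' (hT (x * y)) (R_mul hM hM' hφ (hT x) (hT y)) }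
  have hq : ∀ x, q x = T x := fun _ => rfl
  refine ⟨q, ?_, fun x => ?_⟩
  · have hE : ∀ k x, x ∈ E (m k) → q x ∈ E' k := by
      intro k x hx
      have h1 := hT x k 1 (by rw [map_one, mul_one]; exact (E (m k)).inv_mem hx)
      rw [map_one, mul_one] at h1
      rw [hq]
      exact inv_mem_iff.1 h1
    refine continuous_of_continuousAt_one q ?_
    rw [ContinuousAt, map_one]
    intro S hS
    obtain ⟨S', hS', hS'o, h1⟩ := mem_nhds_iff.1 hS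
    obtain ⟨k, hk⟩ := hM'.basis S' hS'o h1
    rw [Filter.mem_map]
    refine Filter.mem_of_superset ((hM.isOpen (m k)).mem_nhds (E (m k)).one_mem) fun x hx => ?_
    exact hS' (hk (hE k x hx))
  · rw [hq]
    exact R_unique hM hM' (hT (ι x)) (R_of hM hφ fun k =>
      ⟨x, by rw [inv_mul_cancel]; exact (E (m k)).one_mem,
        by rw [inv_mul_cancel]; exact (E' k).one_mem⟩)

end

end Pool.Agent.H371.PM
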